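import Pool.Agent.W202.AH.CoreB
import Pool.Agent.H177R3.CosB

/-! The combinatorial core: a large pair sum forces many bad indices. -/

open Complex Filter Topology Set MeasureTheory
open scoped FourierTransform ComplexConjugate

namespace W202.AH

open H177.Lat

/-- kernel sums against the local counts -/
lemma G_bound (I : Finset ℕ) (y : ℕ → ℝ) {e : ℝ} (he : 0 < e) (R : ℕ) (hR : 2 ≤ R) (n : ℕ) :
    ∑ n' ∈ I, KK e (y n - y n') ≤ e * (kI I y R n : ℝ) +
      1 / e * ∑ n' ∈ I.filter (fun n' => (R : ℝ) < |y n - y n'|), 1 / (y n - y n') ^ 2 := by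
  classical
  rw [← Finset.sum_filter_add_sum_filter_not I (fun n' => (R : ℝ) < |y n - y n'|), add_comm]
  have hR0 : (0 : ℝ) < R := by positivity
  apply add_le_add
  · refine (Finset.sum_le_sum fun n' _ => KK_le he (y n - y n')).trans ?_
    rw [Finset.sum_const, nsmul_eq_mul, mul_comm]
    apply mul_le_mul_of_nonneg_left _ he.le
    unfold kI
    simp only [not_lt]
    exact le_rfl
  · rw [Finset.mul_sum]
    refine Finset.sum_le_sum fun n' hn' => ?_
    have h2 := (Finset.mem_filter.1 hn').2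
    have h3 : 0 < (y n - y n') ^ 2 := by
      rw [← sq_abs]
      have : 0 < |y n - y n'| := hR0.trans h2
      positivity
    rw [mul_one_div, le_div_iff₀ h3]
    exact KK_sq he _

/-- variation of a slowly varying sequence over near pairs, and far pairs -/
lemma var_bound (a b : ℕ) (y : ℕ → ℝ) 
    (hy : ∀ n ∈ Finset.Ioc a b, ∀ m ∈ Finset.Ioc a b, n ≤ m → y n ≤ y m)
    (C : ℕ → ℂ) (K : ℝ) (hK : 0 ≤ K) (hC : ∀ n, ‖C n‖ ≤ 1)
    (hCd : ∀ n m, ‖C n - C m‖ ≤ K * |(n : ℝ) - m|)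
    {e : ℝ} (he : 0 < e) (R : ℕ) (hR : 2 ≤ R) :
    ∑ n ∈ Finset.Ioc a b, ∑ n' ∈ Finset.Ioc a b, KK e (y n - y n') * ‖C n - C n'‖ ≤
      e * K * ∑ n ∈ Finset.Ioc a b, (kI (Finset.Ioc a b) y R n : ℝ) ^ 2 +
      2 * (1 / e * ∑ n ∈ Finset.Ioc a b, ∑ n' ∈ (Finset.Ioc a b).filter
        (fun n' => (R : ℝ) < |y n - y n'|), 1 / (y n - y n') ^ 2) := by
  classical
  set I := Finset.Ioc a b with hI
  have hR0 : (0 : ℝ) < R := by positivity
  rw [Finset.mul_sum, Finset.mul_sum, Finset.mul_sum, ← Finset.sum_add_distrib]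
  refine Finset.sum_le_sum fun n hn => ?_
  rw [← Finset.sum_filter_add_sum_filter_not I (fun n' => (R : ℝ) < |y n - y n'|), add_comm]
  apply add_le_add
  · have hbetween : ∀ n' ∈ I.filter (fun n' => ¬ (R : ℝ) < |y n - y n'|),
        |(n : ℝ) - n'| ≤ (kI I y R n : ℝ) := by
      intro n' hn'
      obtain ⟨g1, g2⟩ := Finset.mem_filter.1 hn'
      push Not at g2
      have key : ∀ p q : ℕ, p ∈ I → q ∈ I → p ≤ q → |y p - y q| ≤ R → (p = n ∨ q = n) →
          ((q : ℝ) - p) ≤ (kI I y R n : ℝ) := by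
        intro p q hp hq hpq hd hpn
        have hsub : Finset.Ioc p q ⊆ I.filter (fun n' => |y n - y n'| ≤ R) := by
          intro j hj
          rw [Finset.mem_Ioc] at hj
          have hjI : j ∈ I := by
            rw [hI, Finset.mem_Ioc] at hp hq ⊢
            omega
          refine Finset.mem_filter.2 ⟨hjI, ?_⟩
          have a1 := hy p hp j hjI (by omega)
          have a2 := hy j hjI q hq (by omega)
          rw [abs_le] at hd
          rcases hpn with h | h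
          · rw [← h, abs_le]
            constructor <;> linarith [hd.1, hd.2]
          · rw [← h, abs_le]
            constructor <;> linarith [hd.1, hd.2]
        have h3 := Finset.card_le_card hsub
        rw [Nat.card_Ioc] at h3
        have h4 : ((q - p : ℕ) : ℝ) ≤ (kI I y R n : ℝ) := by exact_mod_cast h3
        rw [Nat.cast_sub hpq] at h4
        exact h4
      rcases le_total n n' with h | h
      · rw [abs_sub_comm, abs_of_nonneg (by
          have : (n : ℝ) ≤ n' := by exact_mod_cast h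
          linarith)]
        exact key n n' hn g1 h g2 (Or.inl rfl)
      · rw [abs_of_nonneg (by
          have : (n' : ℝ) ≤ n := by exact_mod_cast h
          linarith)]
        exact key n' n g1 hn h (by rw [abs_sub_comm]; exact g2) (Or.inr rfl)
    have hpt : ∀ n' ∈ I.filter (fun n' => ¬ (R : ℝ) < |y n - y n'|),
        KK e (y n - y n') * ‖C n - C n'‖ ≤ e * (K * (kI I y R n : ℝ)) := by
      intro n' hn'
      exact mul_le_mul (KK_le he _) ((hCd n n').trans
        (mul_le_mul_of_nonneg_left (hbetween n' hn') hK)) (norm_nonneg _) he.le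
    have h1 := Finset.sum_le_sum hpt
    rw [Finset.sum_const, nsmul_eq_mul] at h1
    have h2 : ((I.filter (fun n' => ¬ (R : ℝ) < |y n - y n'|)).card : ℝ) = (kI I y R n : ℝ) := by
      unfold kI
      simp only [not_lt]
    rw [h2] at h1
    refine h1.trans (le_of_eq ?_)
    ring
  · rw [Finset.mul_sum, Finset.mul_sum]
    refine Finset.sum_le_sum fun n' hn' => ?_
    have h2 := (Finset.mem_filter.1 hn').2
    have h3 : 0 < (y n - y n') ^ 2 := by
      rw [← sq_abs]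
      have : 0 < |y n - y n'| := hR0.trans h2
      positivity
    have h4 : ‖C n - C n'‖ ≤ 2 := (norm_sub_le _ _).trans (by linarith [hC n, hC n'])
    have h5 : KK e (y n - y n') ≤ 1 / e * (1 / (y n - y n') ^ 2) := by
      rw [mul_one_div, le_div_iff₀ h3]
      exact KK_sq he _
    calc KK e (y n - y n') * ‖C n - C n'‖ ≤ (1 / e * (1 / (y n - y n') ^ 2)) * 2 :=
          mul_le_mul h5 h4 (norm_nonneg _) (by positivity)
      _ = _ := by ring

lemma four_sq' (A B C D : ℂ) :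
    ‖A + B + C + D‖ ^ 2 ≤ 4 * (‖A‖ ^ 2 + ‖B‖ ^ 2 + ‖C‖ ^ 2 + ‖D‖ ^ 2) := by
  have h1 : ‖A + B + C + D‖ ≤ ‖A‖ + ‖B‖ + ‖C‖ + ‖D‖ := by
    refine (norm_add_le _ _).trans ?_
    have := norm_add_le (A + B) C
    have := norm_add_le A B
    linarith
  have h2 := pow_le_pow_left₀ (norm_nonneg _) h1 2
  refine h2.trans ?_
  nlinarith [sq_nonneg (‖A‖ - ‖B‖), sq_nonneg (‖A‖ - ‖C‖), sq_nonneg (‖A‖ - ‖D‖),
    sq_nonneg (‖B‖ - ‖C‖), sq_nonneg (‖B‖ - ‖D‖), sq_nonneg (‖C‖ - ‖D‖)]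

open Classical in
theorem core_thm (a b L q R : ℕ) (lam κ C1 CR M : ℝ) (y ψ : ℕ → ℝ)
    (hL : 1 ≤ L) (hq : 1 ≤ q) (hR : 2 ≤ R) (hlam : 0 < lam) (hκ : 0 < κ) (hC1 : 0 < C1)
    (hCR : 0 < CR) (hM : 0 < M)
    (c1 : 320000 * κ ^ 2 ≤ lam) (c2 : 384 ≤ lam * L) (c3 : (L : ℝ) ≤ κ ^ 2 * (q : ℝ) ^ 2)
    (c4 : 192 * CR ≤ lam * (q * L))
    (c5 : 3072 * C1 * ((L : ℝ) + 1) ^ 2 * (L : ℝ) ^ 2 ≤ lam * R) (c6 : (L : ℝ) ≤ M)
    (hy : ∀ n ∈ Finset.Ioc a b, ∀ m ∈ Finset.Ioc a b, n ≤ m → y n ≤ y m)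
    (hlen : y b - y (a + 1) ≤ M)
    (h1 : ∑ n ∈ Finset.Ioc a b, (kI (Finset.Ioc a b) y 1 n : ℝ) ^ 2 ≤ C1 * M)
    (hk : ∑ n ∈ Finset.Ioc a b, (kI (Finset.Ioc a b) y R n : ℝ) ^ 2 ≤ CR * M)
    (hlow : ∑ n ∈ Finset.Ioc a b, ∑ n' ∈ Finset.Ioc a b, KK (1 / L) (y n - y n') *
      Real.cos (2 * Real.pi * (2 * (1 / L)) * (y n - y n')) ≤ 3 * (1 / (L : ℝ)) ^ 2 * M)
    (h0 : ∑ n ∈ Finset.Ioc a b, ∑ n' ∈ Finset.Ioc a b, KK (1 / L) (y n - y n') ≤ 2 * M)
    (hlarge : lam * (1 / L) * M ≤ ∑ n ∈ Finset.Ioc a b, ∑ n' ∈ Finset.Ioc a b,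
      KK (1 / L) (y n - y n') *
      Real.cos (2 * Real.pi * ((ψ n - ψ n') - 2 * (1 / L) * (y n - y n')))) :
    lam ^ 2 / (4096 * ((L : ℝ) + 1) ^ 4 * CR) * M ≤
      (((Finset.Ioc a b).filter (fun n => ¬ Good κ L (q * L) (fun j => ee (ψ j)) n ∨
        ¬ Good κ L (q * L) (fun j => ee (ψ j)) (n + 1))).card : ℝ) := by
  have hL0 : (0 : ℝ) < L := by exact_mod_cast hL
  have hq0 : (0 : ℝ) < q := by exact_mod_cast hq
  have hR0 : (0 : ℝ) < R := by
    have : 0 < R := by omega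
    exact_mod_cast this
  set e : ℝ := 1 / L with he
  have he0 : 0 < e := by positivity
  have heL : e * L = 1 := by rw [he]; field_simp
  set I := Finset.Ioc a b with hI
  have hab : a < b := by
    by_contra hnot
    have h2 : I = ∅ := Finset.Ioc_eq_empty hnot
    rw [h2] at hlarge
    simp only [Finset.sum_empty] at hlarge
    have : 0 < lam * e * M := by positivity
    linarith
  set z : ℕ → ℂ := fun j => ee (ψ j) with hzdef
  have hz : ∀ n, ‖z n‖ = 1 := fun n => ee_norm _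
  set Gd : ℕ → Prop := fun n => Good κ L (q * L) z n with hGd
  set Sb := I.filter (fun n => ¬ Gd n ∨ ¬ Gd (n + 1)) with hSb
  have hSbI : Sb ⊆ I := Finset.filter_subset _ _
  set k : ℕ → ℕ := fun n => kI I y R n with hkdef
  -- far pairs
  set far : ℝ := ∑ n ∈ I, ∑ n' ∈ I.filter (fun n' => (R : ℝ) < |y n - y n'|),
    1 / (y n - y n') ^ 2 with hfar
  have hfar0 : far ≤ 16 / R * (C1 * M) := by
    refine (far_pairs I y R hR).trans ?_
    apply mul_le_mul_of_nonneg_left _ (by positivity)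
    refine le_trans (Finset.sum_le_sum fun n _ => ?_) h1
    have h3 : ((kI I y 1 n : ℕ) : ℝ) ≤ ((kI I y 1 n ^ 2 : ℕ) : ℝ) := by
      exact_mod_cast Nat.le_self_pow (by norm_num) _
    push_cast at h3
    exact h3
  have hfar1 : 1 / e * far ≤ 16 * C1 * L / R * M := by
    have : 1 / e = L := by rw [he]; field_simp
    rw [this]
    calc (L : ℝ) * far ≤ L * (16 / R * (C1 * M)) := mul_le_mul_of_nonneg_left hfar0 hL0.le
      _ = _ := by ring
  -- the decomposition
  set bRg : ℕ → ℂ := fun n => if Gd n then bR L (q * L) z n else 0 with hbRg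
  set Wg : ℕ → ℂ := fun n => if Gd n then -Wm L (q * L) z n else 0 with hWg
  set En : ℕ → ℂ := fun n => (if Gd n then 0 else bR L (q * L) z n) +
    ((if Gd n then 0 else Wm L (q * L) z n) -
      (if Gd (n + 1) then 0 else Wm L (q * L) z (n + 1))) with hEn
  have hdec : ∀ n, z n = CB (q * L) z n + bRg n + (Wg (n + 1) - Wg n) + En n := by
    intro n
    have h2 := Rm_eq (B := q * L) hL z n
    have h3 : Rm (q * L) z n = z n - CB (q * L) z n := rfl
    simp only [hbRg, hWg, hEn]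
    by_cases g1 : Gd n <;> by_cases g2 : Gd (n + 1) <;> simp only [g1, g2, if_true, if_false] <;>
      linear_combination h2 - h3
  -- pieces
  set τ : ℝ := 2 * e with hτ
  have hU := kernel_eq2 I y ψ he0 τ
  rw [hU] at hlarge
  clear hU
  set fA : ℝ → ℝ := fun u => ‖∑ n ∈ I, CB (q * L) z n * ee ((u - τ) * y n)‖ ^ 2 with hfA
  set fB : ℝ → ℝ := fun u => ‖∑ n ∈ I, bRg n * ee ((u - τ) * y n)‖ ^ 2 with hfB
  set fC : ℝ → ℝ := fun u => ‖∑ n ∈ I, (Wg (n + 1) - Wg n) * ee ((u - τ) * y n)‖ ^ 2 with hfC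
  set fD : ℝ → ℝ := fun u => ‖∑ n ∈ I, En n * ee ((u - τ) * y n)‖ ^ 2 with hfD
  have hcont : ∀ d : ℕ → ℂ, Continuous fun u : ℝ => ‖∑ n ∈ I, d n * ee ((u - τ) * y n)‖ ^ 2 := by
    intro d
    apply Continuous.pow
    apply Continuous.norm
    exact continuous_finsetSum _ fun n _ => continuous_const.mul (ee_cont (by fun_prop))
  have hcont0 : Continuous fun u : ℝ => ‖∑ n ∈ I, ee (ψ n + (u - τ) * y n)‖ ^ 2 := by
    apply Continuous.pow
    apply Continuous.norm
    exact continuous_finsetSum _ fun n _ => ee_cont (by fun_prop)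
  have hpt : ∀ u : ℝ, tri e u * ‖∑ n ∈ I, ee (ψ n + (u - τ) * y n)‖ ^ 2 ≤
      4 * (tri e u * fA u) + 4 * (tri e u * fB u) + (4 * (tri e u * fC u) + 4 * (tri e u * fD u)) := by
    intro u
    have e1 : ∑ n ∈ I, ee (ψ n + (u - τ) * y n) =
        ∑ n ∈ I, CB (q * L) z n * ee ((u - τ) * y n) + ∑ n ∈ I, bRg n * ee ((u - τ) * y n) +
        ∑ n ∈ I, (Wg (n + 1) - Wg n) * ee ((u - τ) * y n) +
        ∑ n ∈ I, En n * ee ((u - τ) * y n) := by
      rw [← Finset.sum_add_distrib, ← Finset.sum_add_distrib, ← Finset.sum_add_distrib]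
      refine Finset.sum_congr rfl fun n _ => ?_
      rw [ee_add, ← add_mul, ← add_mul, ← add_mul, ← hdec n]
    rw [e1]
    have h2 := mul_le_mul_of_nonneg_left (four_sq' (∑ n ∈ I, CB (q * L) z n * ee ((u - τ) * y n))
      (∑ n ∈ I, bRg n * ee ((u - τ) * y n)) (∑ n ∈ I, (Wg (n + 1) - Wg n) * ee ((u - τ) * y n))
      (∑ n ∈ I, En n * ee ((u - τ) * y n))) (tri_nonneg e u)
    refine h2.trans (le_of_eq ?_)
    simp only [hfA, hfB, hfC, hfD]
    ring
  have iA := (tri_integrable he0 (hcont (fun n => CB (q * L) z n))).const_mul 4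
  have iB := (tri_integrable he0 (hcont bRg)).const_mul 4
  have iC := (tri_integrable he0 (hcont (fun n => Wg (n + 1) - Wg n))).const_mul 4
  have iD := (tri_integrable he0 (hcont En)).const_mul 4
  have hint0 := integral_mono (tri_integrable he0 hcont0) ((iA.add iB).add (iC.add iD)) hpt
  have hint : ∫ u, tri e u * ‖∑ n ∈ I, ee (ψ n + (u - τ) * y n)‖ ^ 2 ≤
      (4 * (∫ u, tri e u * fA u) + 4 * (∫ u, tri e u * fB u)) +
      (4 * (∫ u, tri e u * fC u) + 4 * (∫ u, tri e u * fD u)) := by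
    refine hint0.trans (le_of_eq ?_)
    have e1 : ∫ u, (4 * (tri e u * fA u) + 4 * (tri e u * fB u)) + (4 * (tri e u * fC u) +
        4 * (tri e u * fD u)) = (∫ u, 4 * (tri e u * fA u) + 4 * (tri e u * fB u)) +
        ∫ u, 4 * (tri e u * fC u) + 4 * (tri e u * fD u) :=
      integral_add (iA.add iB) (iC.add iD)
    have e2 : ∫ u, 4 * (tri e u * fA u) + 4 * (tri e u * fB u) =
        (∫ u, 4 * (tri e u * fA u)) + ∫ u, 4 * (tri e u * fB u) := integral_add iA iB
    have e3 : ∫ u, 4 * (tri e u * fC u) + 4 * (tri e u * fD u) =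
        (∫ u, 4 * (tri e u * fC u)) + ∫ u, 4 * (tri e u * fD u) := integral_add iC iD
    have e4 := integral_const_mul (μ := volume) 4 (fun u => tri e u * fA u)
    have e5 := integral_const_mul (μ := volume) 4 (fun u => tri e u * fB u)
    have e6 := integral_const_mul (μ := volume) 4 (fun u => tri e u * fC u)
    have e7 := integral_const_mul (μ := volume) 4 (fun u => tri e u * fD u)
    rw [e2, e3, e4, e5, e6, e7] at e1
    exact e1
  -- piece A
  have pA : ∫ u, tri e u * fA u ≤ 12 * e ^ 2 * M + (6 * e * CR / (q * L) * M +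
      6 * (16 * C1 * L / R * M)) := by
    have h2 := sphere I y (CB (q * L) z) (fun n => CB_norm hz n) he0 τ
    have h3 := var_bound a b y hy (CB (q * L) z) (2 / ((q * L : ℕ) : ℝ)) (by positivity)
      (fun n => CB_norm hz n) (fun n m => by
        refine (CB_dist hz n m).trans (le_of_eq ?_)
        ring) he0 R hR
    rw [← hI] at h3
    have h4 : e * (2 / ((q * L : ℕ) : ℝ)) * ∑ n ∈ I, (kI I y R n : ℝ) ^ 2 ≤
        e * (2 / ((q * L : ℕ) : ℝ)) * (CR * M) := mul_le_mul_of_nonneg_left hk (by positivity)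
    have h5 : e * (2 / ((q * L : ℕ) : ℝ)) * (CR * M) = 2 * e * CR / (q * L) * M := by
      push_cast; ring
    rw [h5] at h4
    have h6 : 2 * (1 / e * far) ≤ 2 * (16 * C1 * L / R * M) := by linarith
    have h7 : 6 * e * CR / (q * L) * M = 3 * (2 * e * CR / (q * L) * M) := by ring
    rw [h7]
    have h8 : ∑ n ∈ I, ∑ n' ∈ I, KK e (y n - y n') * Real.cos (2 * Real.pi * τ * (y n - y n')) ≤
        3 * e ^ 2 * M := hlow
    have h9 : ∑ n ∈ I, ∑ n' ∈ I, KK e (y n - y n') * ‖CB (q * L) z n - CB (q * L) z n'‖ ≤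
        2 * e * CR / (q * L) * M + 2 * (16 * C1 * L / R * M) := h3.trans (add_le_add h4 h6)
    refine h2.trans ?_
    linarith
  -- piece B
  have pB : ∫ u, tri e u * fB u ≤ 18 * κ ^ 2 * e * M := by
    refine (pd_bound I y bRg he0 τ).trans ?_
    have h2 : ∀ n ∈ I, ‖bRg n‖ ^ 2 * ∑ n' ∈ I, KK e (y n - y n') ≤
        9 * κ ^ 2 * e * ∑ n' ∈ I, KK e (y n - y n') := by
      intro n _
      apply mul_le_mul_of_nonneg_right _ (Finset.sum_nonneg fun n' _ => KK_nonneg he0 _)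
      simp only [hbRg]
      by_cases g1 : Gd n
      · rw [if_pos g1]; exact good_bR hκ hL hq c3 hz g1
      · rw [if_neg g1, norm_zero, zero_pow two_ne_zero]; positivity
    refine (Finset.sum_le_sum h2).trans ?_
    rw [← Finset.mul_sum]
    calc 9 * κ ^ 2 * e * ∑ n ∈ I, ∑ n' ∈ I, KK e (y n - y n') ≤ 9 * κ ^ 2 * e * (2 * M) :=
          mul_le_mul_of_nonneg_left h0 (by positivity)
      _ = _ := by ring
  -- piece C
  have hsq : Real.sqrt L ^ 2 = L := Real.sq_sqrt hL0.le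
  have pC : ∫ u, tri e u * fC u ≤ 54 * κ ^ 2 + 972 * Real.pi ^ 2 * κ ^ 2 * e * M := by
    have h2 := W_part a b hab y hy Wg (3 * (κ * Real.sqrt L)) (fun n => by
      simp only [hWg]
      by_cases g1 : Gd n
      · rw [if_pos g1, norm_neg]; exact good_Wm hκ hL hq c3 hz g1
      · rw [if_neg g1, norm_zero]; positivity) he0 τ
    refine h2.trans ?_
    rw [hτ, abs_of_pos (by positivity : 0 < 2 * e)]
    have h3 : (3 * (κ * Real.sqrt L)) ^ 2 = 9 * κ ^ 2 * L := by
      rw [mul_pow, mul_pow, hsq]; ring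
    rw [h3]
    have h4 : 6 * (9 * κ ^ 2 * L) * e = 54 * κ ^ 2 * (e * L) := by ring
    have h5 : 12 * Real.pi ^ 2 * (e + 2 * e) ^ 2 * (9 * κ ^ 2 * L * (y b - y (a + 1))) ≤
        12 * Real.pi ^ 2 * (e + 2 * e) ^ 2 * (9 * κ ^ 2 * L * M) := by
      gcongr
    have h6 : 12 * Real.pi ^ 2 * (e + 2 * e) ^ 2 * (9 * κ ^ 2 * L * M) =
        972 * Real.pi ^ 2 * κ ^ 2 * e * M * (e * L) := by ring
    rw [heL] at h4 h6
    linarith
  -- piece D
  have pD : ∫ u, tri e u * fD u ≤ 4 * ((L : ℝ) + 1) ^ 2 * ∑ n ∈ Sb, ∑ n' ∈ I, KK e (y n - y n') := by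
    refine (pd_bound I y En he0 τ).trans ?_
    have h2 : ∀ n ∈ I, ‖En n‖ ^ 2 * ∑ n' ∈ I, KK e (y n - y n') ≤
        if (¬ Gd n ∨ ¬ Gd (n + 1)) then
          4 * ((L : ℝ) + 1) ^ 2 * ∑ n' ∈ I, KK e (y n - y n') else 0 := by
      intro n _
      have hS0 : 0 ≤ ∑ n' ∈ I, KK e (y n - y n') := Finset.sum_nonneg fun n' _ => KK_nonneg he0 _
      by_cases g : (¬ Gd n ∨ ¬ Gd (n + 1))
      · rw [if_pos g]
        apply mul_le_mul_of_nonneg_right _ hS0
        have h3 : ‖En n‖ ≤ 2 * ((L : ℝ) + 1) := by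
          simp only [hEn]
          have k1 : ‖(if Gd n then 0 else bR L (q * L) z n)‖ ≤ 2 := by
            by_cases g1 : Gd n
            · rw [if_pos g1, norm_zero]; norm_num
            · rw [if_neg g1]; exact bR_norm hz n
          have k2 : ∀ m, ‖(if Gd m then 0 else Wm L (q * L) z m)‖ ≤ L := by
            intro m
            by_cases g1 : Gd m
            · rw [if_pos g1, norm_zero]; positivity
            · rw [if_neg g1]; exact Wm_norm hz m
          refine (norm_add_le _ _).trans ?_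
          have := norm_sub_le (if Gd n then 0 else Wm L (q * L) z n)
            (if Gd (n + 1) then 0 else Wm L (q * L) z (n + 1))
          linarith [k2 n, k2 (n + 1)]
        calc ‖En n‖ ^ 2 ≤ (2 * ((L : ℝ) + 1)) ^ 2 := pow_le_pow_left₀ (norm_nonneg _) h3 2
          _ = _ := by ring
      · rw [if_neg g]
        push Not at g
        have : En n = 0 := by
          simp only [hEn]
          rw [if_pos g.1, if_pos g.1, if_pos g.2]
          simp
        rw [this]; simp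
    refine (Finset.sum_le_sum h2).trans ?_
    rw [← Finset.sum_filter, ← hSb, Finset.mul_sum]
  -- the bad indices
  have pD2 : ∑ n ∈ Sb, ∑ n' ∈ I, KK e (y n - y n') ≤ e * ∑ n ∈ Sb, (k n : ℝ) +
      16 * C1 * L / R * M := by
    refine (Finset.sum_le_sum fun n _ => G_bound I y he0 R hR n).trans ?_
    rw [Finset.sum_add_distrib, ← Finset.mul_sum, ← Finset.mul_sum]
    apply add_le_add le_rfl
    refine le_trans ?_ hfar1
    apply mul_le_mul_of_nonneg_left _ (by positivity)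
    apply Finset.sum_le_sum_of_subset_of_nonneg hSbI
    intro n _ _
    exact Finset.sum_nonneg fun n' _ => by positivity
  set SK := ∑ n ∈ Sb, (k n : ℝ) with hSK
  have hpi2 : Real.pi ^ 2 ≤ 9.93 := by
    have h2 := Real.pi_lt_d2
    have h3 := Real.pi_pos
    nlinarith
  -- collect
  have heM : 0 < e * M := by positivity
  have q1 : 48 * e ^ 2 * M ≤ lam / 8 * (e * M) := by
    have h2 : 48 * e ≤ lam / 8 := by
      rw [he, mul_one_div, div_le_iff₀ hL0]
      linarith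
    calc 48 * e ^ 2 * M = (48 * e) * (e * M) := by ring
      _ ≤ _ := mul_le_mul_of_nonneg_right h2 heM.le
  have q2 : 4 * (6 * e * CR / (q * L) * M) ≤ lam / 8 * (e * M) := by
    have h2 : 24 * CR / (q * L) ≤ lam / 8 := by
      rw [div_le_iff₀ (by positivity)]
      linarith
    calc 4 * (6 * e * CR / (q * L) * M) = (24 * CR / (q * L)) * (e * M) := by ring
      _ ≤ _ := mul_le_mul_of_nonneg_right h2 heM.le
  have hRL : 3072 * C1 * (L : ℝ) ^ 2 ≤ lam * R := by
    refine le_trans ?_ c5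
    have h2 : (1 : ℝ) ≤ ((L : ℝ) + 1) ^ 2 := by nlinarith
    have h3 : 0 ≤ 3072 * C1 * (L : ℝ) ^ 2 := by positivity
    nlinarith
  have hMe : M = L * (e * M) := by
    rw [← mul_assoc, mul_comm (L : ℝ) e, heL, one_mul]
  have q3 : 4 * (6 * (16 * C1 * L / R * M)) ≤ lam / 8 * (e * M) := by
    have h2 : 384 * C1 * (L : ℝ) ^ 2 / R ≤ lam / 8 := by
      rw [div_le_iff₀ hR0]
      linarith
    calc 4 * (6 * (16 * C1 * L / R * M)) = 384 * C1 * L / R * M := by ring
      _ = 384 * C1 * L / R * (L * (e * M)) := by rw [← hMe]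
      _ = (384 * C1 * (L : ℝ) ^ 2 / R) * (e * M) := by ring
      _ ≤ _ := mul_le_mul_of_nonneg_right h2 heM.le
  have q4 : 4 * (18 * κ ^ 2 * e * M) + 4 * (972 * Real.pi ^ 2 * κ ^ 2 * e * M) ≤
      lam / 8 * (e * M) := by
    have h2 : 72 * κ ^ 2 + 3888 * Real.pi ^ 2 * κ ^ 2 ≤ lam / 8 := by
      have h3 : 3888 * Real.pi ^ 2 * κ ^ 2 ≤ 3888 * 9.93 * κ ^ 2 := by gcongr
      nlinarith
    calc _ = (72 * κ ^ 2 + 3888 * Real.pi ^ 2 * κ ^ 2) * (e * M) := by ring
      _ ≤ _ := mul_le_mul_of_nonneg_right h2 heM.le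
  have q5 : 4 * (54 * κ ^ 2) ≤ lam / 8 * (e * M) := by
    have h2 : 1 ≤ e * M := by
      rw [he, one_div, inv_mul_eq_div, le_div_iff₀ hL0]
      linarith
    nlinarith
  have q6 : 4 * (4 * ((L : ℝ) + 1) ^ 2 * (16 * C1 * L / R * M)) ≤ lam / 8 * (e * M) := by
    have h2 : 256 * C1 * ((L : ℝ) + 1) ^ 2 * (L : ℝ) ^ 2 / R ≤ lam / 8 := by
      rw [div_le_iff₀ hR0]
      have : 0 ≤ 1024 * C1 * ((L : ℝ) + 1) ^ 2 * (L : ℝ) ^ 2 := by positivity
      linarith
    calc 4 * (4 * ((L : ℝ) + 1) ^ 2 * (16 * C1 * L / R * M)) =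
          256 * C1 * ((L : ℝ) + 1) ^ 2 * L / R * M := by ring
      _ = 256 * C1 * ((L : ℝ) + 1) ^ 2 * L / R * (L * (e * M)) := by rw [← hMe]
      _ = (256 * C1 * ((L : ℝ) + 1) ^ 2 * (L : ℝ) ^ 2 / R) * (e * M) := by ring
      _ ≤ _ := mul_le_mul_of_nonneg_right h2 heM.le
  have hlarge' : lam * (e * M) ≤ ∫ u, tri e u * ‖∑ n ∈ I, ee (ψ n + (u - τ) * y n)‖ ^ 2 := by
    rw [← mul_assoc]; exact hlarge
  have hD3 : 4 * (4 * ((L : ℝ) + 1) ^ 2 * ∑ n ∈ Sb, ∑ n' ∈ I, KK e (y n - y n')) ≤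
      16 * ((L : ℝ) + 1) ^ 2 * e * SK + 4 * (4 * ((L : ℝ) + 1) ^ 2 * (16 * C1 * L / R * M)) := by
    have h2 := mul_le_mul_of_nonneg_left pD2 (by positivity : 0 ≤ 16 * ((L : ℝ) + 1) ^ 2)
    linarith
  have hkey : lam / 4 * (e * M) ≤ 16 * ((L : ℝ) + 1) ^ 2 * e * SK := by
    linarith
  have hSKlow : lam / (64 * ((L : ℝ) + 1) ^ 2) * M ≤ SK := by
    have h2 : e * (lam / 4 * M) ≤ e * (16 * ((L : ℝ) + 1) ^ 2 * SK) := by linarith
    have h3 := le_of_mul_le_mul_left h2 he0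
    rw [div_mul_eq_mul_div, div_le_iff₀ (by positivity)]
    linarith
  have hcs := cs_card I Sb hSbI k (CR * M) hk
  have h4 : (lam / (64 * ((L : ℝ) + 1) ^ 2) * M) ^ 2 ≤ (Sb.card : ℝ) * (CR * M) := by
    refine le_trans ?_ hcs
    exact pow_le_pow_left₀ (by positivity) hSKlow 2
  have h5 : (lam / (64 * ((L : ℝ) + 1) ^ 2) * M) ^ 2 =
      (lam ^ 2 / (4096 * ((L : ℝ) + 1) ^ 4 * CR) * M) * (CR * M) := by
    field_simp
    ring
  rw [h5] at h4
  exact le_of_mul_le_mul_right h4 (by positivity)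

end W202.AH
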