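import Pool.Agent.W202.AH.Stm
import Pool.Agent.W202.AH.CoreC

/-! Assembly: many bad indices in some window. -/

open Complex Filter Topology Set MeasureTheory

namespace W202.AH

open H177.Lat
open SG (ord NZ)
open H370 (Zf mult)

lemma QQ_theta (T A B e θ : ℝ) : QQ T A B e (θ - 2 * e) =
    ∑ n ∈ Finset.Ioc (NZ A) (NZ B), ∑ n' ∈ Finset.Ioc (NZ A) (NZ B), KK e (yy T n - yy T n') *
      Real.cos (2 * Real.pi * ((θ * yy T n - θ * yy T n') - 2 * e * (yy T n - yy T n'))) := by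
  unfold QQ
  refine Finset.sum_congr rfl fun n _ => Finset.sum_congr rfl fun n' _ => ?_
  congr 2
  ring

lemma QQ_zero (T A B e : ℝ) : QQ T A B e 0 =
    ∑ n ∈ Finset.Ioc (NZ A) (NZ B), ∑ n' ∈ Finset.Ioc (NZ A) (NZ B), KK e (yy T n - yy T n') := by
  unfold QQ
  refine Finset.sum_congr rfl fun n _ => Finset.sum_congr rfl fun n' _ => ?_
  rw [mul_zero, zero_mul, Real.cos_zero, mul_one]

/-- removing the shift by one -/
lemma bad_shift (a b : ℕ) (P : ℕ → Prop) [DecidablePred P] :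
    ((Finset.Ioc a b).filter (fun n => P n ∨ P (n + 1))).card ≤
      2 * ((Finset.Ioc a b).filter P).card + 1 := by
  classical
  have h1 : (Finset.Ioc a b).filter (fun n => P n ∨ P (n + 1)) ⊆
      (Finset.Ioc a b).filter P ∪ ((Finset.Ioc a b).filter (fun n => P (n + 1))) := by
    intro n hn
    rw [Finset.mem_filter] at hn
    rw [Finset.mem_union, Finset.mem_filter, Finset.mem_filter]
    rcases hn.2 with h | h
    · exact Or.inl ⟨hn.1, h⟩
    · exact Or.inr ⟨hn.1, h⟩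
  have h2 : ((Finset.Ioc a b).filter (fun n => P (n + 1))).card ≤
      ((Finset.Ioc a b).filter P).card + 1 := by
    have h3 : ((Finset.Ioc a b).filter (fun n => P (n + 1))).image (fun n => n + 1) ⊆
        insert (b + 1) ((Finset.Ioc a b).filter P) := by
      intro m hm
      rw [Finset.mem_image] at hm
      obtain ⟨n, hn, rfl⟩ := hm
      rw [Finset.mem_filter, Finset.mem_Ioc] at hn
      rw [Finset.mem_insert, Finset.mem_filter, Finset.mem_Ioc]
      by_cases h : n + 1 = b + 1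
      · exact Or.inl h
      · exact Or.inr ⟨⟨by omega, by omega⟩, hn.2⟩
    have h4 := Finset.card_le_card h3
    rw [Finset.card_image_of_injective _ (fun x y h => by simpa using h)] at h4
    exact h4.trans (Finset.card_insert_le _ _)
  have h3 := (Finset.card_le_card h1).trans (Finset.card_union_le _ _)
  omega

theorem window_of (hRH : RiemannHypothesis) (hF : LowFreq) (θ lam κ : ℝ) (L q : ℕ) 
    (hlam : 0 < lam) (hκ : 0 < κ) (hκ2 : 320000 * κ ^ 2 ≤ lam) (hL : 16 ≤ L)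
    (hL2 : 384 ≤ lam * L) (hq : 8 ≤ q) (hlow : Lower (1 / L) (θ - 2 * (1 / L)) lam q) :
    ∃ B : ℕ, ∃ c T0 : ℝ, 0 < c ∧ 100 ≤ T0 ∧ ∀ T : ℝ, T0 ≤ T → ∃ t : ℝ, T ≤ t ∧ t ≤ 2 * T ∧
    c * (T * Real.log T) ≤ ({n : ℕ | n ∈ Finset.Ioc (NZ t) (NZ (t + T / q)) ∧
      ¬ Good κ L B (fun j => ee (θ * yy T j)) n}.ncard : ℝ) := by
  classical
  have hpi := Real.pi_pos
  have hL1 : 1 ≤ L := by omega
  have hL0 : (0 : ℝ) < L := by exact_mod_cast hL1
  have hL16 : (16 : ℝ) ≤ L := by exact_mod_cast hL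
  have hq0 : (0 : ℝ) < q := by
    have : 0 < q := by omega
    exact_mod_cast this
  have hq8 : (8 : ℝ) ≤ q := by exact_mod_cast hq
  set e : ℝ := 1 / L with he
  have he0 : 0 < e := by positivity
  have he16 : e ≤ 1 / 16 := by
    rw [he]; exact one_div_le_one_div_of_le (by norm_num) hL16
  obtain ⟨δ, T1, hδ, hT1, hlf⟩ := hF e q he0 he16 hq
  obtain ⟨T2, hlo⟩ := hlow δ hδ
  obtain ⟨C1, T3, hC1, hT3, h1⟩ := third hRH (1 / 2) 1 (by norm_num) (by norm_num) zero_le_one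
  obtain ⟨R, hR2, hRb⟩ : ∃ R : ℕ, 2 ≤ R ∧
      3072 * C1 * ((L : ℝ) + 1) ^ 2 * (L : ℝ) ^ 2 / lam ≤ R :=
    ⟨max 2 ⌈3072 * C1 * ((L : ℝ) + 1) ^ 2 * (L : ℝ) ^ 2 / lam⌉₊, le_max_left _ _,
      (Nat.le_ceil _).trans (by exact_mod_cast le_max_right _ _)⟩
  obtain ⟨CR, T4, hCR, hT4, hk⟩ := third hRH (1 / 2) R (by norm_num) (by norm_num)
    (Nat.cast_nonneg _)
  obtain ⟨Q, hQ1, hQa, hQb⟩ : ∃ Q : ℕ, 1 ≤ Q ∧ (L : ℝ) / κ ^ 2 + 1 ≤ Q ∧
      192 * CR / (lam * L) ≤ Q :=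
    ⟨max 1 (max ⌈(L : ℝ) / κ ^ 2 + 1⌉₊ ⌈192 * CR / (lam * L)⌉₊), le_max_left _ _,
      (Nat.le_ceil _).trans (by exact_mod_cast (le_max_left _ _).trans (le_max_right _ _)),
      (Nat.le_ceil _).trans (by exact_mod_cast (le_max_right _ _).trans (le_max_right _ _))⟩
  have hQL : (L : ℝ) ≤ κ ^ 2 * (Q : ℝ) ^ 2 := by
    have g1 : (L : ℝ) / κ ^ 2 ≤ Q := by linarith
    have g2 : (1 : ℝ) ≤ Q := by
      have : 0 ≤ (L : ℝ) / κ ^ 2 := by positivity
      linarith
    rw [div_le_iff₀ (by positivity)] at g1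
    have g3 : (Q : ℝ) * κ ^ 2 ≤ κ ^ 2 * (Q : ℝ) ^ 2 := by
      have : 0 < κ ^ 2 := by positivity
      nlinarith
    linarith
  set c0 : ℝ := lam ^ 2 / (4096 * ((L : ℝ) + 1) ^ 4 * CR) with hc0
  have hc00 : 0 < c0 := by positivity
  -- eventual facts
  have ev1 : ∀ᶠ T : ℝ in atTop, T ^ (1 / 2 : ℝ) ≤ T / q := by
    have h2 : ∀ᶠ T : ℝ in atTop, (q : ℝ) ≤ T ^ (1 / 2 : ℝ) :=
      (tendsto_rpow_atTop (by norm_num)).eventually_ge_atTop _
    filter_upwards [h2, eventually_gt_atTop 0] with T h2 h3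
    rw [le_div_iff₀ hq0]
    calc T ^ (1 / 2 : ℝ) * q ≤ T ^ (1 / 2 : ℝ) * T ^ (1 / 2 : ℝ) := by gcongr
      _ = T := by rw [← Real.rpow_add h3]; norm_num
  have ev2 : ∀ᶠ T : ℝ in atTop, max (L : ℝ) (2 / c0) * (2 * Real.pi * q) ≤ T :=
    eventually_ge_atTop _
  obtain ⟨T5, hT5⟩ := (ev1.and ev2).exists_forall_of_atTop
  refine ⟨Q * L, c0 / (8 * Real.pi * q), max (max (max T1 T2) (max T3 T4)) T5, by positivity,
    hT1.trans (((le_max_left _ _).trans (le_max_left _ _)).trans (le_max_left _ _)),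
    fun T hT => ?_⟩
  have hTT1 : T1 ≤ T := (((le_max_left _ _).trans (le_max_left _ _)).trans (le_max_left _ _)).trans hT
  have hTT2 : T2 ≤ T := (((le_max_right _ _).trans (le_max_left _ _)).trans (le_max_left _ _)).trans hT
  have hTT3 : T3 ≤ T := (((le_max_left _ _).trans (le_max_right _ _)).trans (le_max_left _ _)).trans hT
  have hTT4 : T4 ≤ T := (((le_max_right _ _).trans (le_max_right _ _)).trans (le_max_left _ _)).trans hT
  obtain ⟨e1, e2⟩ := hT5 T ((le_max_right _ _).trans hT)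
  have hT100 : 100 ≤ T := hT1.trans hTT1
  have hTpos : 0 < T := by linarith
  have hLT1 : 1 ≤ Real.log T := by
    rw [Real.le_log_iff_exp_le hTpos]
    have := Real.exp_one_lt_d9
    linarith
  obtain ⟨t, ht, htE, hlarge⟩ := hlo T hTT2 _ (hlf T hTT1)
  have hgood : QQ T t (t + T / q) e (2 * e) ≤ 3 * e ^ 2 * (T / q * Real.log T / (2 * Real.pi)) ∧
        QQ T t (t + T / q) e 0 ≤ 2 * (T / q * Real.log T / (2 * Real.pi)) := by
    by_contra hc
    exact htE ⟨ht, hc⟩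
  obtain ⟨hg1, hg2⟩ := hgood
  set H : ℝ := T / q with hH
  have hHpos : 0 < H := by positivity
  have hH1 : T ^ (1 / 2 : ℝ) ≤ H := e1
  have hH2 : H ≤ T / 8 := by
    rw [hH]; exact div_le_div_of_nonneg_left hTpos.le (by norm_num) hq8
  set M : ℝ := H * Real.log T / (2 * Real.pi) with hM
  have hMT : T / (2 * Real.pi * q) ≤ M := by
    rw [hM, hH, div_le_div_iff₀ (by positivity) (by positivity)]
    have : T / q * (2 * Real.pi * q) = T * (2 * Real.pi) := by field_simp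
    calc T * (2 * Real.pi) = T * (2 * Real.pi) * 1 := by ring
      _ ≤ T * (2 * Real.pi) * Real.log T := by gcongr
      _ = T / q * Real.log T * (2 * Real.pi * q) := by rw [← this]; ring
  have hMbig : max (L : ℝ) (2 / c0) ≤ M := by
    refine le_trans ?_ hMT
    rw [le_div_iff₀ (by positivity)]
    exact e2
  have hML : (L : ℝ) ≤ M := (le_max_left _ _).trans hMbig
  have hM0 : 0 < M := by linarith
  have hMc : 2 / c0 ≤ M := (le_max_right _ _).trans hMbig
  refine ⟨t, ht.1, ht.2, ?_⟩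
  set a := NZ t with ha
  set b := NZ (t + H) with hb
  rw [QQ_theta] at hlarge
  rw [QQ_zero] at hg2
  unfold QQ at hg1
  rw [← ha, ← hb] at hlarge hg1 hg2
  have hab : a < b := by
    by_contra hnot
    have h2 : Finset.Ioc a b = ∅ := Finset.Ioc_eq_empty hnot
    rw [h2] at hlarge
    simp only [Finset.sum_empty] at hlarge
    have : 0 < lam * e * M := by positivity
    linarith
  have hmono : ∀ n ∈ Finset.Ioc a b, ∀ m ∈ Finset.Ioc a b, n ≤ m → yy T n ≤ yy T m := by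
    intro n hn m _ hnm
    rw [Finset.mem_Ioc] at hn
    have h2 := SG.ord_mono (by omega : 1 ≤ n) hnm
    unfold yy
    gcongr
  have hΛ : yy T b - yy T (a + 1) ≤ M := by
    have h2 : ord b ≤ t + H := (SG.ord_le_iff (by omega) _).mpr le_rfl
    have h3 : t < ord (a + 1) := by
      by_contra hcon2
      push Not at hcon2
      have := (SG.ord_le_iff (by omega : 1 ≤ a + 1) t).mp hcon2
      omega
    have h4 : yy T b - yy T (a + 1) = (ord b - ord (a + 1)) * (Real.log T / (2 * Real.pi)) := by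
      simp only [yy]; ring
    rw [h4, hM, mul_div_assoc]
    apply mul_le_mul_of_nonneg_right _ (by positivity)
    linarith
  have hcore := core_thm a b L Q R lam κ C1 CR M (yy T) (fun j => θ * yy T j) hL1 hQ1 hR2 hlam hκ
    hC1 hCR hM0 hκ2 hL2 hQL (by
      rw [div_le_iff₀ (by positivity)] at hQb
      linarith) (by
      rw [div_le_iff₀ hlam] at hRb
      linarith) hML hmono hΛ
    (h1 T hTT3 H hH1 hH2 t ht.1 ht.2) (hk T hTT4 H hH1 hH2 t ht.1 ht.2) hg1 hg2 hlarge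
  rw [← hc0] at hcore
  have hsh := bad_shift a b (fun n => ¬ Good κ L (Q * L) (fun j => ee (θ * yy T j)) n)
  have hsh' : (((Finset.Ioc a b).filter (fun n =>
      ¬ Good κ L (Q * L) (fun j => ee (θ * yy T j)) n ∨
      ¬ Good κ L (Q * L) (fun j => ee (θ * yy T j)) (n + 1))).card : ℝ) ≤
      2 * (((Finset.Ioc a b).filter (fun n =>
        ¬ Good κ L (Q * L) (fun j => ee (θ * yy T j)) n)).card : ℝ) + 1 := by
    exact_mod_cast hsh
  have hset : {n : ℕ | n ∈ Finset.Ioc a b ∧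
      ¬ Good κ L (Q * L) (fun j => ee (θ * yy T j)) n} =
      ((Finset.Ioc a b).filter (fun n =>
        ¬ Good κ L (Q * L) (fun j => ee (θ * yy T j)) n) : Finset ℕ) := by
    ext n
    simp
  rw [hset, Set.ncard_coe_finset]
  have hone : 1 ≤ c0 / 2 * M := by
    rw [div_le_iff₀ hc00] at hMc
    linarith
  have hfin : c0 / (8 * Real.pi * q) * (T * Real.log T) = c0 / 4 * M := by
    rw [hM, hH]; field_simp; ring
  rw [hfin]
  have hcore2 := hcore.trans hsh'
  linarith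

theorem MW_of (hRH : RiemannHypothesis) (hH : LowerHigh) (hLL : LowerLow) (hF : LowFreq) (θ : ℝ)
    (hθ : 0 < θ) (hθ2 : θ < 3 / 2) : MW θ := by
  set lam : ℝ := min θ (3 / 2 - θ) / 2 with hlamdef
  have hlam : 0 < lam := by
    have : 0 < min θ (3 / 2 - θ) := lt_min hθ (by linarith)
    positivity
  have hlam1 : lam ≤ θ / 2 := by
    have := min_le_left θ (3 / 2 - θ)
    rw [hlamdef]; linarith
  have hlam2 : lam ≤ (3 / 2 - θ) / 2 := by
    have := min_le_right θ (3 / 2 - θ)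
    rw [hlamdef]; linarith
  set κ : ℝ := Real.sqrt (lam / 320000) with hκdef
  have hκ : 0 < κ := Real.sqrt_pos.2 (by positivity)
  have hκ2 : 320000 * κ ^ 2 ≤ lam := by
    rw [hκdef, Real.sq_sqrt (by positivity)]; linarith
  set g : ℝ := if θ ≤ 1 then θ else θ - 1 with hg
  have hg0 : 0 < g := by
    rw [hg]; split_ifs with h
    · exact hθ
    · push Not at h; linarith
  refine ⟨κ, hκ, max 16 (⌈384 / lam⌉₊ + ⌈5 / g⌉₊ + ⌈5 / θ⌉₊), fun L hL => ?_⟩
  have hL16 : 16 ≤ L := (le_max_left _ _).trans hL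
  have hLs : ⌈384 / lam⌉₊ + ⌈5 / g⌉₊ + ⌈5 / θ⌉₊ ≤ L := (le_max_right _ _).trans hL
  have hL0 : (0 : ℝ) < L := by
    have : 0 < L := by omega
    exact_mod_cast this
  have hLa : 384 / lam ≤ L := (Nat.le_ceil _).trans (by exact_mod_cast (by omega : ⌈384 / lam⌉₊ ≤ L))
  have hLb : 5 / g ≤ L := (Nat.le_ceil _).trans (by exact_mod_cast (by omega : ⌈5 / g⌉₊ ≤ L))
  have hLc : 5 / θ ≤ L := (Nat.le_ceil _).trans (by exact_mod_cast (by omega : ⌈5 / θ⌉₊ ≤ L))
  have hL2 : 384 ≤ lam * L := by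
    rw [div_le_iff₀ hlam] at hLa; linarith
  set e : ℝ := 1 / L with he
  have he0 : 0 < e := by positivity
  have heg : 5 * e ≤ g := by
    rw [he, mul_one_div, div_le_iff₀ hL0]
    rw [div_le_iff₀ hg0] at hLb; linarith
  have heθ : 5 * e ≤ θ := by
    rw [he, mul_one_div, div_le_iff₀ hL0]
    rw [div_le_iff₀ hθ] at hLc; linarith
  obtain ⟨q, hq, hlow⟩ : ∃ q : ℕ, 8 ≤ q ∧ Lower (1 / L) (θ - 2 * (1 / L)) lam q := by
    by_cases h : θ ≤ 1
    · exact ⟨8, le_rfl, hLL e (θ - 2 * e) lam he0 (by linarith) (by linarith) (by linarith)⟩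
    · have hg' : g = θ - 1 := by rw [hg, if_neg h]
      rw [hg'] at heg
      exact hH e (θ - 2 * e) lam he0 (by linarith) (by linarith) hlam (by linarith)
  obtain ⟨B, c, T0, h1, h2, h3⟩ := window_of hRH hF θ lam κ L q hlam hκ hκ2 hL16 hL2 hq hlow
  exact ⟨B, q, hq, c, T0, h1, h2, h3⟩

end W202.AH
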