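import Pool.Agent.H177R3.PerA

/-! Positive definite kernels and exponential sums with slowly varying coefficients. -/

open Complex Filter Topology Set MeasureTheory
open scoped FourierTransform ComplexConjugate

namespace W202.AH

open H177.Lat

lemma KK_even {e : ℝ} (x : ℝ) : KK e (-x) = KK e x := by
  unfold KK
  refine integral_congr_ae (Filter.Eventually.of_forall fun u => ?_)
  show tri e u * Real.cos (2 * Real.pi * u * -x) = tri e u * Real.cos (2 * Real.pi * u * x)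
  rw [mul_neg, Real.cos_neg]

lemma ee_im (x : ℝ) : (ee x).im = Real.sin (2 * Real.pi * x) := by
  unfold ee; exact Complex.exp_ofReal_mul_I_im _

/-- the square of a trigonometric sum with coefficients -/
lemma sq_sumc (I : Finset ℕ) (d : ℕ → ℂ) (f : ℕ → ℝ) :
    ‖∑ n ∈ I, d n * ee (f n)‖ ^ 2 =
      ∑ n ∈ I, ∑ n' ∈ I, (d n * conj (d n') * ee (f n - f n')).re := by
  have h1 : ((‖∑ n ∈ I, d n * ee (f n)‖ ^ 2 : ℝ) : ℂ) =
      ∑ n ∈ I, ∑ n' ∈ I, d n * conj (d n') * ee (f n - f n') := by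
    push_cast
    rw [← Complex.mul_conj', map_sum, Finset.sum_mul_sum]
    refine Finset.sum_congr rfl fun n _ => Finset.sum_congr rfl fun n' _ => ?_
    rw [map_mul, ee_conj, sub_eq_add_neg, ee_add]
    ring
  have h2 := congrArg Complex.re h1
  rw [Complex.ofReal_re] at h2
  rw [h2, Complex.re_sum]
  exact Finset.sum_congr rfl fun n _ => Complex.re_sum _ _

/-- the kernel sum as a mean square, with coefficients -/
lemma kernel_eqc (I : Finset ℕ) (y : ℕ → ℝ) (d : ℕ → ℂ) {e : ℝ} (he : 0 < e) (τ : ℝ) :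
    ∫ u, tri e u * ‖∑ n ∈ I, d n * ee ((u - τ) * y n)‖ ^ 2 =
    ∑ n ∈ I, ∑ n' ∈ I, KK e (y n - y n') *
      (d n * conj (d n') * ee (-τ * (y n - y n'))).re := by
  have h1 : ∀ u : ℝ, tri e u * ‖∑ n ∈ I, d n * ee ((u - τ) * y n)‖ ^ 2 =
      ∑ n ∈ I, ∑ n' ∈ I, ((d n * conj (d n') * ee (-τ * (y n - y n'))).re *
        (tri e u * Real.cos (2 * Real.pi * u * (y n - y n'))) -
        (d n * conj (d n') * ee (-τ * (y n - y n'))).im *
        (tri e u * Real.sin (2 * Real.pi * u * (y n - y n')))) := by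
    intro u
    rw [sq_sumc, Finset.mul_sum]
    refine Finset.sum_congr rfl fun n _ => ?_
    rw [Finset.mul_sum]
    refine Finset.sum_congr rfl fun n' _ => ?_
    have e1 : (u - τ) * y n - (u - τ) * y n' = -τ * (y n - y n') + u * (y n - y n') := by ring
    rw [e1, ee_add, ← mul_assoc, Complex.mul_re (d n * conj (d n') * ee (-τ * (y n - y n'))),
      ee_re, ee_im]
    have e2 : 2 * Real.pi * (u * (y n - y n')) = 2 * Real.pi * u * (y n - y n') := by ring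
    rw [e2]
    ring
  simp_rw [h1]
  rw [integral_finsetSum]
  · refine Finset.sum_congr rfl fun n _ => ?_
    rw [integral_finsetSum]
    · refine Finset.sum_congr rfl fun n' _ => ?_
      rw [integral_sub ((tri_integrable he (by fun_prop)).const_mul _)
        ((tri_integrable he (by fun_prop)).const_mul _), integral_const_mul, integral_const_mul,
        tri_sin, mul_zero, sub_zero]
      unfold KK
      ring
    · intro n' _
      exact ((tri_integrable he (by fun_prop)).const_mul _).sub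
        ((tri_integrable he (by fun_prop)).const_mul _)
  · intro n _
    refine integrable_finsetSum _ fun n' _ => ?_
    exact ((tri_integrable he (by fun_prop)).const_mul _).sub
      ((tri_integrable he (by fun_prop)).const_mul _)

/-- upper bound for general coefficients -/
lemma pd_bound (I : Finset ℕ) (y : ℕ → ℝ) (d : ℕ → ℂ) {e : ℝ} (he : 0 < e) (τ : ℝ) :
    ∫ u, tri e u * ‖∑ n ∈ I, d n * ee ((u - τ) * y n)‖ ^ 2 ≤
    ∑ n ∈ I, ‖d n‖ ^ 2 * ∑ n' ∈ I, KK e (y n - y n') := by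
  rw [kernel_eqc I y d he τ]
  have h1 : ∀ n ∈ I, ∀ n' ∈ I, KK e (y n - y n') *
      (d n * conj (d n') * ee (-τ * (y n - y n'))).re ≤
      (‖d n‖ ^ 2 * KK e (y n - y n') + ‖d n'‖ ^ 2 * KK e (y n - y n')) / 2 := by
    intro n _ n' _
    have h2 : (d n * conj (d n') * ee (-τ * (y n - y n'))).re ≤ ‖d n‖ * ‖d n'‖ := by
      refine (Complex.re_le_norm _).trans ?_
      rw [norm_mul, norm_mul, ee_norm, mul_one, RCLike.norm_conj]
    have h3 : ‖d n‖ * ‖d n'‖ ≤ (‖d n‖ ^ 2 + ‖d n'‖ ^ 2) / 2 := by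
      nlinarith [sq_nonneg (‖d n‖ - ‖d n'‖)]
    have h4 := mul_le_mul_of_nonneg_left (h2.trans h3) (KK_nonneg he (y n - y n'))
    linarith
  refine (Finset.sum_le_sum fun n hn => Finset.sum_le_sum fun n' hn' => h1 n hn n' hn').trans ?_
  have e1 : ∑ n ∈ I, ∑ n' ∈ I, ‖d n'‖ ^ 2 * KK e (y n - y n') =
      ∑ n ∈ I, ∑ n' ∈ I, ‖d n‖ ^ 2 * KK e (y n - y n') := by
    rw [Finset.sum_comm]
    refine Finset.sum_congr rfl fun n _ => Finset.sum_congr rfl fun n' _ => ?_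
    rw [← KK_even (y n - y n'), neg_sub]
  have e2 : ∑ n ∈ I, ∑ n' ∈ I,
      (‖d n‖ ^ 2 * KK e (y n - y n') + ‖d n'‖ ^ 2 * KK e (y n - y n')) / 2 =
      ∑ n ∈ I, ∑ n' ∈ I, ‖d n‖ ^ 2 * KK e (y n - y n') := by
    simp_rw [← Finset.sum_div, Finset.sum_add_distrib]
    rw [e1]
    ring
  rw [e2]
  refine le_of_eq (Finset.sum_congr rfl fun n _ => ?_)
  rw [Finset.mul_sum]

/-- positivity with real coefficients -/
lemma pd_nonneg (I : Finset ℕ) (y ρ : ℕ → ℝ) {e : ℝ} (he : 0 < e) (τ : ℝ) :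
    0 ≤ ∑ n ∈ I, ∑ n' ∈ I, KK e (y n - y n') *
      (ρ n * ρ n' * Real.cos (2 * Real.pi * τ * (y n - y n'))) := by
  have h1 := kernel_eqc I y (fun n => (ρ n : ℂ)) he τ
  have h2 : 0 ≤ ∫ u, tri e u * ‖∑ n ∈ I, (ρ n : ℂ) * ee ((u - τ) * y n)‖ ^ 2 :=
    integral_nonneg fun u => mul_nonneg (tri_nonneg e u) (by positivity)
  rw [h1] at h2
  refine h2.trans (le_of_eq ?_)
  refine Finset.sum_congr rfl fun n _ => Finset.sum_congr rfl fun n' _ => ?_
  rw [Complex.conj_ofReal, ← Complex.ofReal_mul, Complex.re_ofReal_mul, ee_re]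
  congr 2
  rw [← Real.cos_neg]
  congr 1
  ring

/-- the pointwise inequality behind the sphere trick -/
lemma sphere_pt (C C' k : ℂ) (hC : ‖C‖ ≤ 1) (hC' : ‖C'‖ ≤ 1) (hk : ‖k‖ = 1) :
    (C * conj C' * k).re ≤ 4 * k.re - Real.sqrt (4 - ‖C‖ ^ 2) * Real.sqrt (4 - ‖C'‖ ^ 2) * k.re +
      3 * ‖C - C'‖ := by
  set ρ := Real.sqrt (4 - ‖C‖ ^ 2) with hρ
  set ρ' := Real.sqrt (4 - ‖C'‖ ^ 2) with hρ'
  have hC2 : ‖C‖ ^ 2 ≤ 1 := pow_le_one₀ (norm_nonneg _) hC
  have hC2' : ‖C'‖ ^ 2 ≤ 1 := pow_le_one₀ (norm_nonneg _) hC'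
  have h1 : ρ ^ 2 = 4 - ‖C‖ ^ 2 := Real.sq_sqrt (by linarith)
  have h1' : ρ' ^ 2 = 4 - ‖C'‖ ^ 2 := Real.sq_sqrt (by linarith)
  have h2 : 1 ≤ ρ := by
    rw [hρ, Real.le_sqrt (by norm_num) (by linarith)]; linarith
  have h2' : 1 ≤ ρ' := by
    rw [hρ', Real.le_sqrt (by norm_num) (by linarith)]; linarith
  set D := ‖C - C'‖ with hD
  have hD0 : 0 ≤ D := norm_nonneg _
  have hD2 : D ≤ 2 := (norm_sub_le _ _).trans (by linarith)
  have hab : |‖C‖ - ‖C'‖| ≤ D := abs_norm_sub_norm_le _ _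
  -- the difference of the last coordinates
  have h3 : |ρ - ρ'| ≤ D := by
    have h4 : (ρ - ρ') * (ρ + ρ') = (‖C'‖ - ‖C‖) * (‖C'‖ + ‖C‖) := by
      have : (ρ - ρ') * (ρ + ρ') = ρ ^ 2 - ρ' ^ 2 := by ring
      rw [this, h1, h1']; ring
    have h5 : |ρ - ρ'| * (ρ + ρ') = |‖C'‖ - ‖C‖| * (‖C'‖ + ‖C‖) := by
      have h6 := congrArg abs h4
      rw [abs_mul, abs_mul, abs_of_pos (by linarith : 0 < ρ + ρ'),
        abs_of_nonneg (by positivity : 0 ≤ ‖C'‖ + ‖C‖)] at h6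
      exact h6
    have h6 : |ρ - ρ'| * 2 ≤ |ρ - ρ'| * (ρ + ρ') := by
      apply mul_le_mul_of_nonneg_left _ (abs_nonneg _); linarith
    have h7 : |‖C'‖ - ‖C‖| * (‖C'‖ + ‖C‖) ≤ D * 2 := by
      rw [abs_sub_comm]
      apply mul_le_mul hab (by linarith) (by positivity) hD0
    linarith
  have h3' : (ρ - ρ') ^ 2 ≤ D ^ 2 := by
    rw [← sq_abs]; exact pow_le_pow_left₀ (abs_nonneg _) h3 2
  -- real and imaginary parts
  set p := (C * conj C').re with hp
  set r := (C * conj C').im with hr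
  have e1 : (C * conj C' * k).re = p * k.re - r * k.im := by rw [Complex.mul_re]
  have e2 : D ^ 2 = ‖C‖ ^ 2 + ‖C'‖ ^ 2 - 2 * p := by
    rw [hD, hp, Complex.sq_norm, Complex.sq_norm, Complex.sq_norm, Complex.normSq_sub]
  have hr1 : |r| ≤ D := by
    have h4 : r = (C * conj (C' - C)).im := by
      rw [hr, map_sub, mul_sub, Complex.sub_im, Complex.mul_conj]
      simp
    rw [h4]
    refine (Complex.abs_im_le_norm _).trans ?_
    rw [norm_mul, RCLike.norm_conj, norm_sub_rev]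
    calc ‖C‖ * ‖C - C'‖ ≤ 1 * ‖C - C'‖ := mul_le_mul_of_nonneg_right hC (norm_nonneg _)
      _ = D := by rw [one_mul]
  have hkr : |k.re| ≤ 1 := (Complex.abs_re_le_norm k).trans hk.le
  have hki : |k.im| ≤ 1 := (Complex.abs_im_le_norm k).trans hk.le
  have hri : -(r * k.im) ≤ D := by
    have h4 : |r * k.im| ≤ D * 1 := by
      rw [abs_mul]; exact mul_le_mul hr1 hki (abs_nonneg _) hD0
    have := neg_abs_le (r * k.im)
    linarith
  have hmain : p = 4 - ρ * ρ' - ((ρ - ρ') ^ 2 + D ^ 2) / 2 := by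
    have : ((ρ - ρ') ^ 2 + D ^ 2) / 2 = (ρ ^ 2 + ρ' ^ 2 - 2 * (ρ * ρ') + D ^ 2) / 2 := by ring
    rw [this, h1, h1', e2]; ring
  have hneg : -(((ρ - ρ') ^ 2 + D ^ 2) / 2 * k.re) ≤ 2 * D := by
    have h4 : 0 ≤ ((ρ - ρ') ^ 2 + D ^ 2) / 2 := by positivity
    have h5 : ((ρ - ρ') ^ 2 + D ^ 2) / 2 ≤ 2 * D := by nlinarith
    have h6 : |((ρ - ρ') ^ 2 + D ^ 2) / 2 * k.re| ≤ 2 * D * 1 := by
      rw [abs_mul, abs_of_nonneg h4]
      exact mul_le_mul h5 hkr (abs_nonneg _) (by linarith)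
    have := neg_abs_le (((ρ - ρ') ^ 2 + D ^ 2) / 2 * k.re)
    linarith
  rw [e1]
  have e3 : p * k.re = 4 * k.re - ρ * ρ' * k.re - ((ρ - ρ') ^ 2 + D ^ 2) / 2 * k.re := by
    rw [hmain]; ring
  rw [e3]
  linarith

/-- slowly varying coefficients -/
theorem sphere (I : Finset ℕ) (y : ℕ → ℝ) (C : ℕ → ℂ) (hC : ∀ n, ‖C n‖ ≤ 1) {e : ℝ} (he : 0 < e)
    (τ : ℝ) :
    ∫ u, tri e u * ‖∑ n ∈ I, C n * ee ((u - τ) * y n)‖ ^ 2 ≤
    4 * ∑ n ∈ I, ∑ n' ∈ I, KK e (y n - y n') * Real.cos (2 * Real.pi * τ * (y n - y n')) +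
    3 * ∑ n ∈ I, ∑ n' ∈ I, KK e (y n - y n') * ‖C n - C n'‖ := by
  rw [kernel_eqc I y C he τ]
  have hpos := pd_nonneg I y (fun n => Real.sqrt (4 - ‖C n‖ ^ 2)) he τ
  have h1 : ∀ n ∈ I, ∀ n' ∈ I, KK e (y n - y n') *
      (C n * conj (C n') * ee (-τ * (y n - y n'))).re ≤
      4 * (KK e (y n - y n') * Real.cos (2 * Real.pi * τ * (y n - y n'))) -
      KK e (y n - y n') * (Real.sqrt (4 - ‖C n‖ ^ 2) * Real.sqrt (4 - ‖C n'‖ ^ 2) *
        Real.cos (2 * Real.pi * τ * (y n - y n'))) +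
      3 * (KK e (y n - y n') * ‖C n - C n'‖) := by
    intro n _ n' _
    have h2 := sphere_pt (C n) (C n') (ee (-τ * (y n - y n'))) (hC n) (hC n') (ee_norm _)
    have e1 : (ee (-τ * (y n - y n'))).re = Real.cos (2 * Real.pi * τ * (y n - y n')) := by
      rw [ee_re, ← Real.cos_neg]; congr 1; ring
    rw [e1] at h2
    have h3 := mul_le_mul_of_nonneg_left h2 (KK_nonneg he (y n - y n'))
    linarith
  refine (Finset.sum_le_sum fun n hn => Finset.sum_le_sum fun n' hn' => h1 n hn n' hn').trans ?_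
  simp_rw [Finset.sum_add_distrib, Finset.sum_sub_distrib, ← Finset.mul_sum]
  linarith

end W202.AH
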