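import Mathlib

/-! Windows of small discrepancy. -/

namespace W202.AH

/-- The sequence `z` has small discrepancy on the windows of length `L` near `n`: there is one
complex number `c` such that all the sums of at most `L` consecutive terms that start in
`[n, n + B]` are within `κ √L` of the corresponding multiple of `c`. -/
def Good (κ : ℝ) (L B : ℕ) (z : ℕ → ℂ) (n : ℕ) : Prop :=
  ∃ c : ℂ, ∀ m l : ℕ, m ≤ B → l ≤ L →
    ‖∑ i ∈ Finset.range l, z (n + m + i) - l * c‖ ≤ κ * Real.sqrt L

end W202.AH
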