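import Pool.Agent.W202.AH.CoreA
import Pool.Agent.W202.AH.Def

/-! Telescoping part, and the decomposition of a unimodular sequence at a good index. -/

open Complex Filter Topology Set MeasureTheory
open scoped FourierTransform ComplexConjugate

namespace W202.AH

open H177.Lat

/-- the part with bounded partial sums -/
theorem W_part (a b : ℕ) (hab : a < b) (y : ℕ → ℝ)
    (hy : ∀ n ∈ Finset.Ioc a b, ∀ m ∈ Finset.Ioc a b, n ≤ m → y n ≤ y m)
    (Q : ℕ → ℂ) (B : ℝ) (hQ : ∀ n, ‖Q n‖ ≤ B) {e : ℝ} (he : 0 < e) (τ : ℝ) :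
    ∫ u, tri e u * ‖∑ n ∈ Finset.Ioc a b, (Q (n + 1) - Q n) * ee ((u - τ) * y n)‖ ^ 2 ≤
    6 * B ^ 2 * e + 12 * Real.pi ^ 2 * (e + |τ|) ^ 2 * (B ^ 2 * (y b - y (a + 1))) := by
  have hB : 0 ≤ B := (norm_nonneg _).trans (hQ 0)
  set m := b - (a + 1) with hm
  set Y : ℕ → ℝ := fun i => y (min (a + 1 + i) b) with hYdef
  have hY : Monotone Y := by
    intro i j hij
    simp only [hYdef]
    apply hy
    · rw [Finset.mem_Ioc]; omega
    · rw [Finset.mem_Ioc]; omega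
    · omega
  have hY0 : Y 0 = y (a + 1) := by
    simp only [hYdef]; congr 1; omega
  have hYm : Y m = y b := by
    simp only [hYdef]; congr 1; omega
  have hI : Finset.Ioc a b = Finset.Ico (a + 1) (a + 1 + (m + 1)) := by
    ext k; rw [Finset.mem_Ioc, Finset.mem_Ico]; omega
  set Q' : ℕ → ℂ := fun i => Q (a + 1 + i) with hQ'
  have hsplit : ∀ w : ℝ, ∑ n ∈ Finset.Ioc a b, (Q (n + 1) - Q n) * ee (w * y n) =
      ∑ i ∈ Finset.range (m + 1), (Q' (i + 1) - Q' i) * ee (w * Y i) := by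
    intro w
    rw [hI, Finset.sum_Ico_eq_sum_range]
    have e1 : a + 1 + (m + 1) - (a + 1) = m + 1 := by omega
    rw [e1]
    refine Finset.sum_congr rfl fun i hi => ?_
    rw [Finset.mem_range] at hi
    have e2 : Y i = y (a + 1 + i) := by
      simp only [hYdef]; congr 1; omega
    rw [e2]
    rfl
  obtain ⟨hint, hle⟩ := fourq_sq (fun i => Q' (i + 1)) B hB (fun i => hQ _) Y hY m
  set F : ℝ → ℝ := fun u => ‖𝓕 (stq (fun i => Q' (i + 1)) Y m) u‖ ^ 2 with hF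
  have hpt : ∀ u : ℝ, tri e u *
      ‖∑ n ∈ Finset.Ioc a b, (Q (n + 1) - Q n) * ee ((u - τ) * y n)‖ ^ 2 ≤
      6 * B ^ 2 * (tri e u * Real.cos (2 * Real.pi * u * 0)) +
        12 * Real.pi ^ 2 * (e + |τ|) ^ 2 * F (τ - u) := by
    intro u
    rw [hsplit, mul_zero, Real.cos_zero, mul_one]
    have h1 := Q_bound Q' B (fun i => hQ _) Y hY m (u - τ)
    have e1 : -(u - τ) = τ - u := by ring
    rw [e1] at h1
    have hF0 : 0 ≤ F (τ - u) := by simp only [hF]; positivity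
    have hFF : ‖𝓕 (stq (fun i => Q' (i + 1)) Y m) (τ - u)‖ ^ 2 = F (τ - u) := rfl
    rw [hFF] at h1
    have ht0 := tri_nonneg e u
    have ht1 := tri_le_one he u
    set Z2 := ∑ i ∈ Finset.range (m + 1), (Q' (i + 1) - Q' i) * ee ((u - τ) * Y i) with hZ2
    rcases le_or_gt e |u| with h | h
    · rw [tri_zero he h]
      have : 0 ≤ 12 * Real.pi ^ 2 * (e + |τ|) ^ 2 * F (τ - u) := by positivity
      simpa using this
    · have h2 : (2 * Real.pi * (u - τ)) ^ 2 ≤ 4 * Real.pi ^ 2 * (e + |τ|) ^ 2 := by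
        have h3 : |u - τ| ≤ e + |τ| := (abs_sub _ _).trans (by linarith)
        have h4 : (u - τ) ^ 2 ≤ (e + |τ|) ^ 2 := by
          rw [← sq_abs (u - τ)]
          exact pow_le_pow_left₀ (abs_nonneg _) h3 2
        have h5 : (0 : ℝ) ≤ 4 * Real.pi ^ 2 := by positivity
        nlinarith
      calc tri e u * ‖Z2‖ ^ 2
          ≤ tri e u * (6 * B ^ 2 + 3 * ((2 * Real.pi * (u - τ)) ^ 2 * F (τ - u))) := by
            gcongr
        _ ≤ tri e u * (6 * B ^ 2 + 3 * ((4 * Real.pi ^ 2 * (e + |τ|) ^ 2) * F (τ - u))) := by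
            gcongr
        _ = 6 * B ^ 2 * tri e u +
            tri e u * (12 * Real.pi ^ 2 * (e + |τ|) ^ 2 * F (τ - u)) := by ring
        _ ≤ 6 * B ^ 2 * tri e u +
            1 * (12 * Real.pi ^ 2 * (e + |τ|) ^ 2 * F (τ - u)) := by
            gcongr
        _ = _ := by ring
  have hcontA : Continuous fun u : ℝ =>
      ‖∑ n ∈ Finset.Ioc a b, (Q (n + 1) - Q n) * ee ((u - τ) * y n)‖ ^ 2 := by
    apply Continuous.pow
    apply Continuous.norm
    exact continuous_finsetSum _ fun n _ => continuous_const.mul (ee_cont (by fun_prop))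
  have hi2 : Integrable fun u : ℝ => F (τ - u) := hint.comp_sub_left τ
  have hi0 := (tri_integrable he (g := fun u => Real.cos (2 * Real.pi * u * 0))
    (by fun_prop)).const_mul (6 * B ^ 2)
  have hi3 := hi2.const_mul (12 * Real.pi ^ 2 * (e + |τ|) ^ 2)
  refine (integral_mono (tri_integrable he hcontA) (hi0.add hi3) hpt).trans ?_
  simp only [Pi.add_apply]
  rw [integral_add hi0 hi3, integral_const_mul, integral_const_mul]
  have h8 : ∫ u, tri e u * Real.cos (2 * Real.pi * u * 0) = e := KK_zero he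
  have h9 : ∫ u, F (τ - u) = ∫ u, F u := integral_sub_left_eq_self F volume τ
  rw [h8, h9]
  rw [hY0, hYm] at hle
  have h10 : 0 ≤ 12 * Real.pi ^ 2 * (e + |τ|) ^ 2 := by positivity
  have h11 := mul_le_mul_of_nonneg_left hle h10
  linarith

/-- moving average -/
noncomputable def CB (B : ℕ) (z : ℕ → ℂ) (n : ℕ) : ℂ := (B : ℂ)⁻¹ * ∑ i ∈ Finset.range B, z (n + i)

/-- the remainder -/
noncomputable def Rm (B : ℕ) (z : ℕ → ℂ) (n : ℕ) : ℂ := z n - CB B z n

/-- its local average -/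
noncomputable def bR (L B : ℕ) (z : ℕ → ℂ) (n : ℕ) : ℂ :=
  (L : ℂ)⁻¹ * ∑ i ∈ Finset.range L, Rm B z (n + i)

/-- averaged partial sums -/
noncomputable def Wm (L B : ℕ) (z : ℕ → ℂ) (n : ℕ) : ℂ :=
  (L : ℂ)⁻¹ * ∑ l ∈ Finset.range L, ∑ i ∈ Finset.range l, Rm B z (n + i)

lemma CB_norm {B : ℕ} {z : ℕ → ℂ} (hz : ∀ n, ‖z n‖ = 1) (n : ℕ) : ‖CB B z n‖ ≤ 1 := by
  unfold CB
  rw [norm_mul, norm_inv, Complex.norm_natCast]
  have h1 : ‖∑ i ∈ Finset.range B, z (n + i)‖ ≤ B := by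
    refine (norm_sum_le _ _).trans ?_
    simp [hz]
  rcases Nat.eq_zero_or_pos B with h | h
  · subst h; simp
  · have hB : (0 : ℝ) < B := by exact_mod_cast h
    rw [inv_mul_le_iff₀ hB, mul_one]
    exact h1

lemma CB_step {B : ℕ} (z : ℕ → ℂ) (n : ℕ) :
    CB B z (n + 1) - CB B z n = (B : ℂ)⁻¹ * (z (n + B) - z n) := by
  unfold CB
  rw [← mul_sub]
  congr 1
  have h1 := Finset.sum_range_succ (fun i => z (n + i)) B
  have h2 := Finset.sum_range_succ' (fun i => z (n + i)) B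
  rw [h1] at h2
  simp only [add_zero] at h2
  have h3 : ∑ i ∈ Finset.range B, z (n + 1 + i) = ∑ i ∈ Finset.range B, z (n + (i + 1)) :=
    Finset.sum_congr rfl fun i _ => by congr 1; ring
  rw [h3]
  linear_combination -h2

lemma CB_diff {B : ℕ} {z : ℕ → ℂ} (hz : ∀ n, ‖z n‖ = 1) (n k : ℕ) :
    ‖CB B z (n + k) - CB B z n‖ ≤ 2 * k / B := by
  induction k with
  | zero => simp
  | succ k ih =>
    have h1 : CB B z (n + (k + 1)) - CB B z n =
        (CB B z (n + k + 1) - CB B z (n + k)) + (CB B z (n + k) - CB B z n) := by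
      rw [add_assoc]; ring
    rw [h1, CB_step]
    refine (norm_add_le _ _).trans ?_
    have h2 : ‖(B : ℂ)⁻¹ * (z (n + k + B) - z (n + k))‖ ≤ 2 / B := by
      rw [norm_mul, norm_inv, Complex.norm_natCast, div_eq_inv_mul]
      apply mul_le_mul_of_nonneg_left _ (by positivity)
      refine (norm_sub_le _ _).trans ?_
      rw [hz, hz]; norm_num
    have h3 : 2 * ((k + 1 : ℕ) : ℝ) / B = 2 / B + 2 * k / B := by push_cast; ring
    rw [h3]
    exact add_le_add h2 ih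

lemma CB_dist {B : ℕ} {z : ℕ → ℂ} (hz : ∀ n, ‖z n‖ = 1) (n m : ℕ) :
    ‖CB B z n - CB B z m‖ ≤ 2 * |(n : ℝ) - m| / B := by
  rcases le_total n m with h | h
  · obtain ⟨k, rfl⟩ := Nat.exists_eq_add_of_le h
    rw [norm_sub_rev]
    refine (CB_diff hz n k).trans (le_of_eq ?_)
    push_cast
    rw [show (n : ℝ) - (n + k) = -(k : ℝ) by ring, abs_neg, abs_of_nonneg (Nat.cast_nonneg _)]
  · obtain ⟨k, rfl⟩ := Nat.exists_eq_add_of_le h
    refine (CB_diff hz m k).trans (le_of_eq ?_)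
    push_cast
    rw [show (m : ℝ) + k - m = (k : ℝ) by ring, abs_of_nonneg (Nat.cast_nonneg _)]

lemma Rm_norm {B : ℕ} {z : ℕ → ℂ} (hz : ∀ n, ‖z n‖ = 1) (n : ℕ) : ‖Rm B z n‖ ≤ 2 := by
  unfold Rm
  refine (norm_sub_le _ _).trans ?_
  have := CB_norm (B := B) hz n
  rw [hz]; linarith

lemma Rm_sum_norm {B : ℕ} {z : ℕ → ℂ} (hz : ∀ n, ‖z n‖ = 1) (n l : ℕ) :
    ‖∑ i ∈ Finset.range l, Rm B z (n + i)‖ ≤ 2 * l := by
  refine (norm_sum_le _ _).trans ?_
  refine (Finset.sum_le_sum fun i _ => Rm_norm hz (n + i)).trans ?_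
  simp [mul_comm]

lemma bR_norm {L B : ℕ} {z : ℕ → ℂ} (hz : ∀ n, ‖z n‖ = 1) (n : ℕ) : ‖bR L B z n‖ ≤ 2 := by
  unfold bR
  rw [norm_mul, norm_inv, Complex.norm_natCast]
  rcases Nat.eq_zero_or_pos L with h | h
  · subst h; simp
  · have hL : (0 : ℝ) < L := by exact_mod_cast h
    rw [inv_mul_le_iff₀ hL, mul_comm]
    exact Rm_sum_norm hz n L

lemma Wm_norm {L B : ℕ} {z : ℕ → ℂ} (hz : ∀ n, ‖z n‖ = 1) (n : ℕ) : ‖Wm L B z n‖ ≤ L := by
  unfold Wm
  rw [norm_mul, norm_inv, Complex.norm_natCast]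
  rcases Nat.eq_zero_or_pos L with h | h
  · subst h; simp
  · have hL : (0 : ℝ) < L := by exact_mod_cast h
    rw [inv_mul_le_iff₀ hL]
    refine (norm_sum_le _ _).trans ?_
    refine (Finset.sum_le_sum fun l _ => Rm_sum_norm hz n l).trans ?_
    rw [← Finset.mul_sum]
    have h1 : (∑ i ∈ Finset.range L, (i : ℝ)) * 2 = L * (L - 1) := by
      have h2 := Finset.sum_range_id_mul_two L
      have h3 : (((∑ i ∈ Finset.range L, i) * 2 : ℕ) : ℝ) = ((L * (L - 1) : ℕ) : ℝ) := by rw [h2]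
      push_cast [Nat.cast_sub h] at h3
      exact h3
    nlinarith

/-- the decomposition -/
lemma Rm_eq {L B : ℕ} (hL : 1 ≤ L) (z : ℕ → ℂ) (n : ℕ) :
    Rm B z n = bR L B z n + (Wm L B z n - Wm L B z (n + 1)) := by
  have hL0 : (L : ℂ) ≠ 0 := by
    have : L ≠ 0 := by omega
    exact_mod_cast this
  have h1 : ∀ l : ℕ, ∑ i ∈ Finset.range l, Rm B z (n + i) -
      ∑ i ∈ Finset.range l, Rm B z (n + 1 + i) = Rm B z n - Rm B z (n + l) := by
    intro l
    induction l with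
    | zero => simp
    | succ l ih =>
      rw [Finset.sum_range_succ, Finset.sum_range_succ]
      have e1 : n + 1 + l = n + (l + 1) := by ring
      rw [e1]
      linear_combination ih
  unfold Wm bR
  rw [← mul_sub, ← Finset.sum_sub_distrib]
  simp_rw [h1]
  rw [Finset.sum_sub_distrib, Finset.sum_const, Finset.card_range, nsmul_eq_mul]
  field_simp
  ring

/-- partial sums of the remainder at a good index -/
lemma good_partial {κ : ℝ} {L q : ℕ} (hκ : 0 < κ) (hL : 1 ≤ L) (hq : 1 ≤ q)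
    (hLq : (L : ℝ) ≤ κ ^ 2 * (q : ℝ) ^ 2) {z : ℕ → ℂ} (hz : ∀ n, ‖z n‖ = 1) {n : ℕ}
    (hg : Good κ L (q * L) z n) {l : ℕ} (hl : l ≤ L) :
    ‖∑ i ∈ Finset.range l, Rm (q * L) z (n + i)‖ ≤ 3 * (κ * Real.sqrt L) := by
  obtain ⟨c, hc⟩ := hg
  have hL0 : (0 : ℝ) < L := by exact_mod_cast hL
  have hq0 : (0 : ℝ) < q := by exact_mod_cast hq
  set s := κ * Real.sqrt L with hs
  have hs0 : 0 ≤ s := by positivity
  -- the average
  have h1 : ∀ j : ℕ, j ≤ q → ‖∑ i ∈ Finset.range (j * L), z (n + i) - (j * L : ℕ) * c‖ ≤ j * s := by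
    intro j
    induction j with
    | zero => intro _; simp
    | succ j ih =>
      intro hj
      have h2 := ih (by omega)
      have h3 := hc (j * L) L (by
        have : j * L ≤ q * L := Nat.mul_le_mul_right L (by omega)
        omega) le_rfl
      have e1 : (j + 1) * L = j * L + L := by ring
      rw [e1, Finset.sum_range_add]
      have e2 : ∑ i ∈ Finset.range (j * L), z (n + i) + ∑ i ∈ Finset.range L, z (n + (j * L + i)) -
          ((j * L + L : ℕ) : ℂ) * c = (∑ i ∈ Finset.range (j * L), z (n + i) - ((j * L : ℕ) : ℂ) * c) +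
          (∑ i ∈ Finset.range L, z (n + j * L + i) - L * c) := by
        have e3 : ∑ i ∈ Finset.range L, z (n + (j * L + i)) =
            ∑ i ∈ Finset.range L, z (n + j * L + i) :=
          Finset.sum_congr rfl fun i _ => by rw [add_assoc]
        rw [e3]; push_cast; ring
      rw [e2]
      refine (norm_add_le _ _).trans ?_
      have e5 : (((j + 1 : ℕ) : ℝ)) * s = (j : ℝ) * s + s := by push_cast; ring
      rw [e5]
      linarith
  have h2 := h1 q le_rfl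
  have hBpos : (0 : ℝ) < (q * L : ℕ) := by push_cast; positivity
  have h3 : ‖CB (q * L) z n - c‖ ≤ s / L := by
    have e1 : CB (q * L) z n - c = ((q * L : ℕ) : ℂ)⁻¹ *
        (∑ i ∈ Finset.range (q * L), z (n + i) - ((q * L : ℕ) : ℂ) * c) := by
      have : ((q * L : ℕ) : ℂ) ≠ 0 := by exact_mod_cast hBpos.ne'
      unfold CB
      field_simp
    rw [e1, norm_mul, norm_inv, Complex.norm_natCast, inv_mul_le_iff₀ hBpos]
    refine h2.trans (le_of_eq ?_)
    push_cast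
    field_simp
  have hsq : Real.sqrt L * Real.sqrt L = L := Real.mul_self_sqrt hL0.le
  have hLq' : (L : ℝ) / q ≤ s := by
    have g1 : Real.sqrt L ≤ κ * q := by
      rw [Real.sqrt_le_left (by positivity), mul_pow]
      exact hLq
    rw [div_le_iff₀ hq0, hs]
    calc (L : ℝ) = Real.sqrt L * Real.sqrt L := hsq.symm
      _ ≤ (κ * q) * Real.sqrt L := mul_le_mul_of_nonneg_right g1 (Real.sqrt_nonneg _)
      _ = κ * Real.sqrt L * q := by ring
  have hl' : (l : ℝ) ≤ L := by exact_mod_cast hl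
  have e1 : ∑ i ∈ Finset.range l, Rm (q * L) z (n + i) =
      (∑ i ∈ Finset.range l, z (n + i) - l * c) -
      ∑ i ∈ Finset.range l, (CB (q * L) z (n + i) - CB (q * L) z n) - l * (CB (q * L) z n - c) := by
    unfold Rm
    rw [Finset.sum_sub_distrib, Finset.sum_sub_distrib, Finset.sum_const, Finset.card_range,
      nsmul_eq_mul]
    ring
  have h4 : ‖∑ i ∈ Finset.range l, z (n + i) - l * c‖ ≤ s := by
    have := hc 0 l (Nat.zero_le _) hl
    simpa using this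
  have h5 : ‖∑ i ∈ Finset.range l, (CB (q * L) z (n + i) - CB (q * L) z n)‖ ≤ s := by
    refine (norm_sum_le _ _).trans ?_
    refine (Finset.sum_le_sum fun i _ => CB_diff hz n i).trans ?_
    have g1 : ∑ i ∈ Finset.range l, 2 * (i : ℝ) / ((q * L : ℕ) : ℝ) =
        ((∑ i ∈ Finset.range l, (i : ℝ)) * 2) / ((q * L : ℕ) : ℝ) := by
      rw [Finset.sum_mul, Finset.sum_div]
      exact Finset.sum_congr rfl fun i _ => by ring
    have g2 : (∑ i ∈ Finset.range l, (i : ℝ)) * 2 ≤ (L : ℝ) * L := by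
      rcases Nat.eq_zero_or_pos l with h | h
      · subst h; simp; positivity
      · have g3 := Finset.sum_range_id_mul_two l
        have g4 : (((∑ i ∈ Finset.range l, i) * 2 : ℕ) : ℝ) = ((l * (l - 1) : ℕ) : ℝ) := by rw [g3]
        push_cast [Nat.cast_sub h] at g4
        rw [g4]
        have : (0 : ℝ) < l := by exact_mod_cast h
        nlinarith
    rw [g1]
    calc ((∑ i ∈ Finset.range l, (i : ℝ)) * 2) / ((q * L : ℕ) : ℝ) ≤
          ((L : ℝ) * L) / ((q * L : ℕ) : ℝ) := div_le_div_of_nonneg_right g2 hBpos.le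
      _ = (L : ℝ) / q := by push_cast; field_simp
      _ ≤ s := hLq'
  have h6 : ‖(l : ℂ) * (CB (q * L) z n - c)‖ ≤ s := by
    rw [norm_mul, Complex.norm_natCast]
    calc (l : ℝ) * ‖CB (q * L) z n - c‖ ≤ L * (s / L) := mul_le_mul hl' h3 (norm_nonneg _) hL0.le
      _ = s := by field_simp
  rw [e1]
  refine (norm_sub_le _ _).trans ?_
  have := norm_sub_le (∑ i ∈ Finset.range l, z (n + i) - l * c)
    (∑ i ∈ Finset.range l, (CB (q * L) z (n + i) - CB (q * L) z n))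
  linarith

lemma good_bR {κ : ℝ} {L q : ℕ} (hκ : 0 < κ) (hL : 1 ≤ L) (hq : 1 ≤ q)
    (hLq : (L : ℝ) ≤ κ ^ 2 * (q : ℝ) ^ 2) {z : ℕ → ℂ} (hz : ∀ n, ‖z n‖ = 1) {n : ℕ}
    (hg : Good κ L (q * L) z n) : ‖bR L (q * L) z n‖ ^ 2 ≤ 9 * κ ^ 2 * (1 / L) := by
  have hL0 : (0 : ℝ) < L := by exact_mod_cast hL
  have h1 := good_partial hκ hL hq hLq hz hg le_rfl
  have hsq : Real.sqrt L ^ 2 = L := Real.sq_sqrt hL0.le
  unfold bR
  rw [norm_mul, norm_inv, Complex.norm_natCast, mul_pow]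
  have h2 := pow_le_pow_left₀ (norm_nonneg _) h1 2
  calc ((L : ℝ)⁻¹) ^ 2 * ‖∑ i ∈ Finset.range L, Rm (q * L) z (n + i)‖ ^ 2 ≤
      ((L : ℝ)⁻¹) ^ 2 * (3 * (κ * Real.sqrt L)) ^ 2 := by gcongr
    _ = ((L : ℝ)⁻¹) ^ 2 * (9 * κ ^ 2 * Real.sqrt L ^ 2) := by ring
    _ = 9 * κ ^ 2 * (1 / L) := by rw [hsq]; field_simp

lemma good_Wm {κ : ℝ} {L q : ℕ} (hκ : 0 < κ) (hL : 1 ≤ L) (hq : 1 ≤ q)
    (hLq : (L : ℝ) ≤ κ ^ 2 * (q : ℝ) ^ 2) {z : ℕ → ℂ} (hz : ∀ n, ‖z n‖ = 1) {n : ℕ}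
    (hg : Good κ L (q * L) z n) : ‖Wm L (q * L) z n‖ ≤ 3 * (κ * Real.sqrt L) := by
  have hL0 : (0 : ℝ) < L := by exact_mod_cast hL
  unfold Wm
  rw [norm_mul, norm_inv, Complex.norm_natCast, inv_mul_le_iff₀ hL0]
  refine (norm_sum_le _ _).trans ?_
  refine (Finset.sum_le_sum fun l hl => good_partial hκ hL hq hLq hz hg
    (Finset.mem_range.1 hl).le).trans ?_
  simp

end W202.AH
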