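import Pool.Agent.W202.AH.Asm
import Pool.Agent.W177.AHP1
import Pool.Agent.W177.AHP5
import Pool.Agent.W177.AHP6
import Pool.Agent.W762.AH.AHP2
import Pool.Agent.W349.AH.P3b
import Pool.Agent.W327.AHP4
import Pool.Agent.W61.AHP7.Main
import Pool.Agent.W214.AHP8

/-! Final theorems. -/

open Complex Filter Topology Set MeasureTheory

namespace W202.AH

open H177.Lat
open SG (ord NZ)

theorem mw (hRH : RiemannHypothesis) (θ : ℝ) (hθ : 0 < θ) (hθ2 : θ < 3 / 2) : MW θ :=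
  MW_of hRH
    (Pool.Agent.W349.AH.main hRH (Pool.Agent.W762.AHP2.main hRH Pool.Agent.W177.AHP1.main))
    (Pool.Agent.W327.AHP4.low hRH) (Pool.Agent.W327.AHP4.freq hRH) θ hθ hθ2

/-- many bad indices among the first `N`, both normalisations -/
theorem mn (hRH : RiemannHypothesis) (θ : ℝ) (hθ : 0 < θ) (hθ2 : θ < 3 / 2) (w : ℕ → ℝ)
    (hw : Nrm w) : MN θ w :=
  Pool.Agent.W177.AHP5.main θ hθ (mw hRH θ hθ hθ2) w hw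

theorem coset_sums (hRH : RiemannHypothesis) (θ : ℝ) (hθ : 0 < θ) (hθ2 : θ < 3 / 2) (r : ℕ)
    (hr : 1 ≤ r) : ∃ ε : ℝ, 0 < ε ∧ ∀ᶠ N : ℕ in atTop, ∀ α : ℝ,
    ε * N ≤ ({n : ℕ | 1 ≤ n ∧ n ≤ N ∧ ∀ k : ℤ, ε ≤ |∑ i ∈ Finset.range (n + r), del2 i -
      ∑ i ∈ Finset.range n, del2 i - α - k / θ|}.ncard : ℝ) := by
  have h := Pool.Agent.W214.AHP8.main θ hθ _ (mn hRH θ hθ hθ2 _ Pool.Agent.W177.AHP6.main.2) r hr
  exact h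

theorem patterns (hRH : RiemannHypothesis) (θ : ℝ) (hθ : 0 < θ) (hθ2 : θ < 3 / 2) :
    ∃ κ : ℝ, 0 < κ ∧ ∃ L0 : ℕ, ∀ L : ℕ, L0 ≤ L → ∃ B : ℕ, ∃ ε : ℝ, 0 < ε ∧ ∀ᶠ N : ℕ in atTop,
    ε * N ≤ ({n : ℕ | 1 ≤ n ∧ n ≤ N ∧ ∀ a : ℕ → ℝ,
      (∃ c : ℂ, ∀ m l : ℕ, m + l ≤ B → l ≤ L →
        ‖∑ i ∈ Finset.range l, ee (θ * ∑ j ∈ Finset.range (m + i), a j) - l * c‖ ≤
          κ * Real.sqrt L) →
      ∃ i : ℕ, i < B ∧ ∀ k : ℤ, ε ≤ |ord (n + i + 1) * Real.log (ord (n + i + 1)) / (2 * Real.pi) -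
        ord (n + i) * Real.log (ord (n + i)) / (2 * Real.pi) - a i - k / θ|}.ncard : ℝ) := by
  have h := Pool.Agent.W61.AHP7.main θ hθ _ (mn hRH θ hθ hθ2 _ Pool.Agent.W177.AHP6.main.1)
  exact h

end W202.AH
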