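import Pool.Agent.W202.AH.Def
import Pool.Agent.H177R3.CosE
import Pool.Agent.H177R3.PerC
import Pool.Agent.H343R2.ZeroSide

/-!
Local discrepancy of the exponentials `e(θ y_n)` of consecutive zeros of zeta, `θ < 3/2`:
statements of the tasks.
-/

open Complex Filter Topology Set MeasureTheory

namespace W202.AH

open H177.Lat
open SG (ord NZ)
open H370 (Zf mult)

/-- the pair sum over the zeros with ordinate in `(A, B]` at the scale `log T`, centred at the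
frequency `τ`, with the Fejer kernel of width `e` -/
noncomputable def QQ (T A B e τ : ℝ) : ℝ :=
  ∑ n ∈ Finset.Ioc (NZ A) (NZ B), ∑ n' ∈ Finset.Ioc (NZ A) (NZ B),
    KK e (yy T n - yy T n') * Real.cos (2 * Real.pi * τ * (yy T n - yy T n'))

/-- AHP-1: the Gaussian pair sum of a dyadic block -/
def GaussLower : Prop := ∀ δ : ℝ, 0 < δ → δ ≤ 1 → ∃ b T0 : ℝ, 0 < b ∧ 10 ≤ T0 ∧ ∀ T : ℝ, T0 ≤ T →
  ∃ U1 U2 : ℝ, T ≤ U1 ∧ U1 ≤ T + 1 ∧ 2 * T - 1 ≤ U2 ∧ U2 ≤ 2 * T ∧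
    ∀ α : ℝ, 1 ≤ α → α ≤ 3 / 2 - 4 * δ →
      (3 / 2 - α - 4 * δ) * (T / (2 * Real.pi) * Real.log T) ≤
        (H343.PPair (H343.kG b) (α * Real.log T) (Zf riemannZeta U1 U2)
          (fun s => (mult riemannZeta s : ℝ))).re

/-- AHP-2: the pair sum of a dyadic block near a frequency in `(1, 3/2)` -/
def BlockLower : Prop := ∀ e θ' ε : ℝ, 0 < e → 1 + e ≤ θ' → θ' + e < 3 / 2 → 0 < ε →
  ∃ T0 : ℝ, 10 ≤ T0 ∧ ∀ T : ℝ, T0 ≤ T →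
  ∃ U1 U2 : ℝ, T ≤ U1 ∧ U1 ≤ T + 1 ∧ 2 * T - 1 ≤ U2 ∧ U2 ≤ 2 * T ∧
    (3 / 2 - θ' - ε) * e * (T / (2 * Real.pi) * Real.log T) ≤ QQ T U1 U2 e θ'

/-- a window with a large pair sum near the frequency `θ'`, outside every small exceptional set -/
def Lower (e θ' lam : ℝ) (q : ℕ) : Prop := ∀ δ : ℝ, 0 < δ → ∃ T0 : ℝ, ∀ T : ℝ, T0 ≤ T →
  ∀ E : Set ℝ, volume E ≤ ENNReal.ofReal (T ^ (1 - δ)) →
  ∃ t ∈ Set.Icc T (2 * T), t ∉ E ∧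
    lam * e * (T / q * Real.log T / (2 * Real.pi)) ≤ QQ T t (t + T / q) e θ'

/-- AHP-3 -/
def LowerHigh : Prop := ∀ e θ' lam : ℝ, 0 < e → 1 + e ≤ θ' → θ' + e < 3 / 2 → 0 < lam →
  lam < 3 / 2 - θ' → ∃ q : ℕ, 8 ≤ q ∧ Lower e θ' lam q

/-- AHP-4a -/
def LowerLow : Prop := ∀ e θ' lam : ℝ, 0 < e → e ≤ θ' → θ' + e < 1 → lam < θ' → Lower e θ' lam 8

/-- AHP-4b: the low frequencies in almost all windows -/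
def LowFreq : Prop := ∀ e : ℝ, ∀ q : ℕ, 0 < e → e ≤ 1 / 16 → 8 ≤ q → ∃ δ T0 : ℝ, 0 < δ ∧ 100 ≤ T0 ∧
  ∀ T : ℝ, T0 ≤ T →
    volume {t : ℝ | t ∈ Set.Icc T (2 * T) ∧
      ¬ (QQ T t (t + T / q) e (2 * e) ≤ 3 * e ^ 2 * (T / q * Real.log T / (2 * Real.pi)) ∧
        QQ T t (t + T / q) e 0 ≤ 2 * (T / q * Real.log T / (2 * Real.pi)))} ≤
      ENNReal.ofReal (T ^ (1 - δ))

/-- many bad indices in some window, at the local scale -/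
def MW (θ : ℝ) : Prop := ∃ κ : ℝ, 0 < κ ∧ ∃ L0 : ℕ, ∀ L : ℕ, L0 ≤ L → ∃ B q : ℕ, 8 ≤ q ∧
  ∃ c T0 : ℝ, 0 < c ∧ 100 ≤ T0 ∧ ∀ T : ℝ, T0 ≤ T → ∃ t : ℝ, T ≤ t ∧ t ≤ 2 * T ∧
    c * (T * Real.log T) ≤ ({n : ℕ | n ∈ Finset.Ioc (NZ t) (NZ (t + T / q)) ∧
      ¬ Good κ L B (fun j => ee (θ * yy T j)) n}.ncard : ℝ)

/-- `w` is a normalisation of the ordinates: its increments are those of `yy T`, up to a relative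
error `O(1 / log T)`, for the ordinates in `[T, 3 T]` -/
def Nrm (w : ℕ → ℝ) : Prop := ∃ C T0 : ℝ, 0 < C ∧ 100 ≤ T0 ∧ ∀ T : ℝ, T0 ≤ T → ∀ j : ℕ, 1 ≤ j →
  T ≤ ord j → ord (j + 1) ≤ 3 * T →
    |(w (j + 1) - w j) - (yy T (j + 1) - yy T j)| ≤ C / Real.log T * (yy T (j + 1) - yy T j)

/-- many bad indices among the first `N`, for the normalised ordinates `w` -/
def MN (θ : ℝ) (w : ℕ → ℝ) : Prop := ∃ κ : ℝ, 0 < κ ∧ ∃ L0 : ℕ, ∀ L : ℕ, L0 ≤ L → ∃ B : ℕ,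
  ∃ ε : ℝ, 0 < ε ∧ ∀ᶠ N : ℕ in atTop,
    ε * N ≤ ({n : ℕ | 1 ≤ n ∧ n ≤ N ∧ ¬ Good κ L B (fun j => ee (θ * w j)) n}.ncard : ℝ)

/-- AHP-5: from windows to the first `N` indices -/
def Transfer : Prop := ∀ θ : ℝ, 0 < θ → MW θ → ∀ w : ℕ → ℝ, Nrm w → MN θ w

/-- AHP-6: the two normalisations -/
def Norms : Prop :=
  Nrm (fun j => ord j * Real.log (ord j) / (2 * Real.pi)) ∧
  Nrm (fun j => ∑ i ∈ Finset.range j, del2 i)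

/-- AHP-7: blocks of gaps avoid the patterns of low discrepancy -/
def CorPattern : Prop := ∀ θ : ℝ, 0 < θ → ∀ w : ℕ → ℝ, MN θ w →
  ∃ κ : ℝ, 0 < κ ∧ ∃ L0 : ℕ, ∀ L : ℕ, L0 ≤ L → ∃ B : ℕ, ∃ ε : ℝ, 0 < ε ∧ ∀ᶠ N : ℕ in atTop,
    ε * N ≤ ({n : ℕ | 1 ≤ n ∧ n ≤ N ∧ ∀ a : ℕ → ℝ,
      (∃ c : ℂ, ∀ m l : ℕ, m + l ≤ B → l ≤ L →
        ‖∑ i ∈ Finset.range l, ee (θ * ∑ j ∈ Finset.range (m + i), a j) - l * c‖ ≤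
          κ * Real.sqrt L) →
      ∃ i : ℕ, i < B ∧ ∀ k : ℤ, ε ≤ |w (n + i + 1) - w (n + i) - a i - k / θ|}.ncard : ℝ)

/-- AHP-8: sums of `r` consecutive gaps do not concentrate on a coset -/
def CorCoset : Prop := ∀ θ : ℝ, 0 < θ → ∀ w : ℕ → ℝ, MN θ w → ∀ r : ℕ, 1 ≤ r →
  ∃ ε : ℝ, 0 < ε ∧ ∀ᶠ N : ℕ in atTop, ∀ α : ℝ,
    ε * N ≤ ({n : ℕ | 1 ≤ n ∧ n ≤ N ∧ ∀ k : ℤ, ε ≤ |w (n + r) - w n - α - k / θ|}.ncard : ℝ)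

end W202.AH
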